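import Pool.Agent.H837.UF.Final

/-!
# The transfer principle
-/

set_option autoImplicit false

namespace Pool.Agent.H837.UF

open MvPolynomial Pool.Agent.Y148.OD
open Filter hiding map

variable {R : Type} [CommRing R]

/-- The transfer principle: the property `Q` over the complex numbers is equivalent to the uniform
validity of the properties `P c` over algebraic closures of finite fields if ultraproducts of the
reductions respect these properties. -/
theorem transfer [Algebra.FiniteType ℤ R] (ι : R →+* ℂ) (hι : Function.Injective ι) (Q : Prop)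
    (P : ∀ (p : ℕ) [Fact p.Prime], (R →+* AlgebraicClosure (ZMod p)) → ℕ → Prop)
    (h1 : ∀ (p : ℕ → ℕ) [∀ j, Fact (p j).Prime] (φ : ∀ j, R →+* AlgebraicClosure (ZMod (p j)))
      (π : (∀ j, AlgebraicClosure (ZMod (p j))) →+* ℂ), IsUltra (hyperfilter ℕ) π →
      π.comp (RingHom.pi φ) = ι → (∀ j, ¬ P (p j) (φ j) j) → ¬ Q)
    (h2 : ∀ (p : ℕ → ℕ) [∀ j, Fact (p j).Prime] (φ : ∀ j, R →+* AlgebraicClosure (ZMod (p j)))
      (π : (∀ j, AlgebraicClosure (ZMod (p j))) →+* ℂ), IsUltra (hyperfilter ℕ) π →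
      π.comp (RingHom.pi φ) = ι → ∀ c, (∀ j, P (p j) (φ j) c) → Q) :
    List.TFAE
      [Q,
       ∃ (h : R) (c p₀ : ℕ), h ≠ 0 ∧ ∀ (p : ℕ) [Fact p.Prime], p₀ ≤ p →
         ∀ φ : R →+* AlgebraicClosure (ZMod p), φ h ≠ 0 → P p φ c,
       ∃ c : ℕ, ∀ h : R, h ≠ 0 → ∀ p₀ : ℕ, ∃ (p : ℕ) (_ : Fact p.Prime)
         (φ : R →+* AlgebraicClosure (ZMod p)), p₀ ≤ p ∧ φ h ≠ 0 ∧ P p φ c] := by
  classical
  have hRc : Countable R := countable_of_finiteType
  obtain ⟨g, hg0, hg⟩ := exists_sequence hι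
  tfae_have 1 → 2 := by
    intro h
    by_contra hcon
    push Not at hcon
    choose p hpf hp φ hφ hmv using fun j : ℕ => hcon (g j) j j (hg0 j)
    obtain ⟨π, hπ, hc⟩ := exists_ultra hι p φ (eventually_ne_of_dvd hg φ hφ)
    exact h1 p φ π hπ hc hmv h
  tfae_have 2 → 3 := by
    rintro ⟨h, c, p₀, h0, hmv⟩
    refine ⟨c, fun h' h0' q₀ => ?_⟩
    have hne : ∀ x : R, x ≠ 0 → ι x ≠ 0 := fun x hx hx0 => hx (hι (by rw [hx0, map_zero]))
    obtain ⟨p₁, hp₁⟩ := exists_reduction (ι := ι) (h := h * h') (by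
      rw [map_mul]
      exact mul_ne_zero (hne h h0) (hne h' h0'))
    obtain ⟨p, hp, hpp⟩ := Nat.exists_infinite_primes (max p₁ (max p₀ q₀))
    have hf : Fact p.Prime := ⟨hpp⟩
    obtain ⟨φ, hφ⟩ := hp₁ p ((le_max_left _ _).trans hp)
    rw [map_mul] at hφ
    refine ⟨p, hf, φ, ?_, right_ne_zero_of_mul hφ, hmv p ?_ φ (left_ne_zero_of_mul hφ)⟩
    · exact (le_max_right _ _).trans ((le_max_right _ _).trans hp)
    · exact (le_max_left _ _).trans ((le_max_right _ _).trans hp)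
  tfae_have 3 → 1 := by
    rintro ⟨c, h⟩
    choose p hpf φ hp hφ hmv using fun j : ℕ => h (g j) (hg0 j) j
    obtain ⟨π, hπ, hc⟩ := exists_ultra hι p φ (eventually_ne_of_dvd hg φ hφ)
    exact h2 p φ π hπ hc c hmv
  tfae_finish

end Pool.Agent.H837.UF
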