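import Pool.Agent.H837.UF.Final

/-!
# Torsion differences of points and uniformly bounded rational equivalences over finite fields
-/

set_option autoImplicit false

namespace Pool.Agent.H837.UF

open MvPolynomial Pool.Agent.Y148.OD
open Filter hiding map

/-- For any two points `x` and `y` of the variety given by `S` and `φ` there is a positive `N ≤ c` such
that the zero-cycles `N [x]` and `N [y]` are rationally equivalent with complexity at most `c`. -/
def Torsion {R : Type} [CommRing R] {r : ℕ} (S : Finset (MvPolynomial (Fin (r + 1)) R))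
    {K : Type} [Field K] (φ : R →+* K) (c : ℕ) : Prop :=
  ∀ x ∈ Cone S φ, ∀ y ∈ Cone S φ, ∃ N : ℕ, 1 ≤ N ∧ N ≤ c ∧
    RatEq (Cone S φ) c (fun _ : Fin N => x) (fun _ : Fin N => y)

theorem eventually_exists_finite {J A : Type} [Finite A] {U : Ultrafilter J} {P : A → J → Prop}
    (h : ∀ᶠ j in U, ∃ a, P a j) : ∃ a, ∀ᶠ j in U, P a j := by
  by_contra hcon
  have h1 : ∀ a, ∀ᶠ j in U, ¬ P a j := by
    intro a
    rw [Ultrafilter.eventually_not]
    exact fun h2 => hcon ⟨a, h2⟩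
  obtain ⟨j, ⟨a, hj1⟩, hj2⟩ := (h.and (eventually_all.mpr h1)).exists
  exact hj2 a hj1

theorem gamma_const {r : ℕ} {X : Set (Pt r)} (N : ℕ) (x : X) :
    γ X (fun _ : Fin N => x) = N • cl X (vec x) := by
  have h := γ_pt (X := X) fun _ : Fin N => vec x
  simp only [pt_vec] at h
  rw [h, Finset.sum_const, Finset.card_univ, Fintype.card_fin]

variable {R : Type} [CommRing R]

/-- The criterion over the complex numbers. -/
theorem const_iff {r : ℕ} {S : Finset (MvPolynomial (Fin (r + 1)) R)}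
    (hS : ∀ P ∈ S, ∃ d : ℕ, P.IsHomogeneous d) {ι : R →+* ℂ} {v w : Fin (r + 1) → ℂ}
    (hv : v ∈ Cone S ι) (hw : w ∈ Cone S ι) (N : ℕ) :
    N • cl (Member S ι) v = N • cl (Member S ι) w ↔
      ∃ c, RatEq (Cone S ι) c (fun _ : Fin N => v) (fun _ : Fin N => w) := by
  have hc := cone_member hS ι
  have hne : (Member S ι).Nonempty := by
    have h1 : v ∈ cone (Member S ι) := by rw [hc]; exact hv
    exact ⟨_, h1.choose_spec⟩
  have h1 := cl_iff (X := Member S ι) hne (x := fun _ : Fin N => v) (y := fun _ : Fin N => w)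
    (fun _ => by rw [hc]; exact hv) (fun _ => by rw [hc]; exact hw)
  rw [hc] at h1
  rw [← h1, Finset.sum_const, Finset.sum_const, Finset.card_univ, Fintype.card_fin]

theorem pair_main [Algebra.FiniteType ℤ R] {r : ℕ} (S : Finset (MvPolynomial (Fin (r + 1)) R))
    (hS : ∀ P ∈ S, ∃ d : ℕ, P.IsHomogeneous d) (ι : R →+* ℂ) (hι : Function.Injective ι) :
    List.TFAE
      [∀ x y : Member S ι, ∃ N : ℕ, 1 ≤ N ∧
         γ (Member S ι) (fun _ : Fin N => x) = γ (Member S ι) (fun _ : Fin N => y),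
       ∃ N : ℕ, 1 ≤ N ∧ ∀ x y : Member S ι,
         γ (Member S ι) (fun _ : Fin N => x) = γ (Member S ι) (fun _ : Fin N => y),
       ∃ (h : R) (c p₀ : ℕ), h ≠ 0 ∧ ∀ (p : ℕ) [Fact p.Prime], p₀ ≤ p →
         ∀ φ : R →+* AlgebraicClosure (ZMod p), φ h ≠ 0 → Torsion S φ c,
       ∃ c : ℕ, ∀ h : R, h ≠ 0 → ∀ p₀ : ℕ, ∃ (p : ℕ) (_ : Fact p.Prime)
         (φ : R →+* AlgebraicClosure (ZMod p)), p₀ ≤ p ∧ φ h ≠ 0 ∧ Torsion S φ c] := by
  classical
  have hRc : Countable R := countable_of_finiteType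
  obtain ⟨g, hg0, hg⟩ := exists_sequence hι
  have hmem : ∀ x : Member S ι, (vec x : Fin (r + 1) → ℂ) ∈ Cone S ι := by
    intro x
    exact (Set.ext_iff.mp (cone_member hS ι) _).mp (vec x).2
  have hpt : ∀ v : Fin (r + 1) → ℂ, v ∈ Cone S ι → ∃ x : Member S ι,
      cl (Member S ι) v = cl (Member S ι) (vec x) := by
    intro v hv
    rw [← cone_member hS ι] at hv
    refine ⟨pt ⟨v, hv⟩, ?_⟩
    have h1 := cl_coe (X := Member S ι) ⟨v, hv⟩
    rw [h1, cl_coe, pt_vec]
  tfae_have 2 → 1 := by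
    rintro ⟨N, hN, h⟩ x y
    exact ⟨N, hN, h x y⟩
  tfae_have 1 → 3 := by
    intro h
    by_contra hcon
    push Not at hcon
    choose p hpf hp φ hφ hmv using fun j : ℕ => hcon (g j) j j (hg0 j)
    obtain ⟨π, hπ, rfl⟩ := exists_ultra hι p φ (eventually_ne_of_dvd hg φ hφ)
    have hlim := cone_lim hπ S (RingHom.pi φ)
    simp only [Torsion] at hmv
    push Not at hmv
    choose x hx y hy hno using hmv
    have hx' : (fun a => π fun j => x j a) ∈ Cone S (π.comp (RingHom.pi φ)) :=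
      (hlim fun a j => x j a).mpr (Eventually.of_forall hx)
    have hy' : (fun a => π fun j => y j a) ∈ Cone S (π.comp (RingHom.pi φ)) :=
      (hlim fun a j => y j a).mpr (Eventually.of_forall hy)
    obtain ⟨x₁, hx₁⟩ := hpt _ hx'
    obtain ⟨y₁, hy₁⟩ := hpt _ hy'
    obtain ⟨N, hN, hNe⟩ := h x₁ y₁
    rw [gamma_const, gamma_const, ← hx₁, ← hy₁, const_iff hS hx' hy'] at hNe
    obtain ⟨c, hc⟩ := hNe
    have h1 := (ratEq_iff hπ hlim c (fun (_ : Fin N) a j => x j a) fun _ a j => y j a).mp hc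
    have h4 : ∀ᶠ j in (hyperfilter ℕ : Filter ℕ), max N c ≤ j :=
      Nat.hyperfilter_le_atTop (eventually_ge_atTop _)
    obtain ⟨j, hj1, hj2⟩ := (h1.and h4).exists
    exact hno j N hN ((le_max_left _ _).trans hj2)
      (RatEq.mono hj1 ⟨_, hx j⟩ ((le_max_right _ _).trans hj2))
  tfae_have 3 → 4 := by
    rintro ⟨h, c, p₀, h0, hmv⟩
    refine ⟨c, fun h' h0' q₀ => ?_⟩
    have hne : ∀ x : R, x ≠ 0 → ι x ≠ 0 := fun x hx hx0 => hx (hι (by rw [hx0, map_zero]))
    obtain ⟨p₁, hp₁⟩ := exists_reduction (ι := ι) (h := h * h') (by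
      rw [map_mul]
      exact mul_ne_zero (hne h h0) (hne h' h0'))
    obtain ⟨p, hp, hpp⟩ := Nat.exists_infinite_primes (max p₁ (max p₀ q₀))
    have hf : Fact p.Prime := ⟨hpp⟩
    obtain ⟨φ, hφ⟩ := hp₁ p ((le_max_left _ _).trans hp)
    rw [map_mul] at hφ
    refine ⟨p, hf, φ, ?_, right_ne_zero_of_mul hφ, hmv p ?_ φ (left_ne_zero_of_mul hφ)⟩
    · exact (le_max_right _ _).trans ((le_max_right _ _).trans hp)
    · exact (le_max_left _ _).trans ((le_max_right _ _).trans hp)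
  tfae_have 4 → 2 := by
    rintro ⟨c, h⟩
    choose p hpf φ hp hφ hmv using fun j : ℕ => h (g j) (hg0 j) j
    obtain ⟨π, hπ, rfl⟩ := exists_ultra hι p φ (eventually_ne_of_dvd hg φ hφ)
    have hlim := cone_lim hπ S (RingHom.pi φ)
    refine ⟨c.factorial, Nat.factorial_pos c, fun x y => ?_⟩
    have hx := hmem x
    have hy := hmem y
    rw [gamma_const, gamma_const]
    choose x' hx' using fun a => hπ.surj ((vec x : Fin (r + 1) → ℂ) a)
    choose y' hy' using fun a => hπ.surj ((vec y : Fin (r + 1) → ℂ) a)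
    have ex : (fun a => π (x' a)) = (vec x : Fin (r + 1) → ℂ) := _root_.funext hx'
    have ey : (fun a => π (y' a)) = (vec y : Fin (r + 1) → ℂ) := _root_.funext hy'
    rw [← ex] at hx ⊢
    rw [← ey] at hy ⊢
    have h1 : ∀ᶠ j in (hyperfilter ℕ : Filter ℕ), ∃ N : Fin (c + 1), 1 ≤ (N : ℕ) ∧
        RatEq (Cone S (φ j)) c (fun (_ : Fin N) a => x' a j) (fun (_ : Fin N) a => y' a j) := by
      filter_upwards [(hlim x').mp hx, (hlim y').mp hy] with j hj1 hj2
      obtain ⟨N, hN1, hN2, hN⟩ := hmv j _ hj1 _ hj2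
      exact ⟨⟨N, by omega⟩, hN1, hN⟩
    obtain ⟨N, hN⟩ := eventually_exists_finite h1
    obtain ⟨j, hj⟩ := hN.exists
    have h2 := (ratEq_iff hπ hlim c (fun (_ : Fin (N : ℕ)) => x') fun _ => y').mpr
      (hN.mono fun j hj => hj.2)
    have h3 := (const_iff hS hx hy N).mpr ⟨c, h2⟩
    obtain ⟨d, hd⟩ := Nat.dvd_factorial hj.1 (Nat.lt_succ_iff.mp N.2)
    rw [hd, mul_nsmul, mul_nsmul, h3]
  tfae_finish

end Pool.Agent.H837.UF
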