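import Pool.Agent.H837.UF.Alt
import Pool.Agent.H837.UF.Pair

/-!
# Alternating sums of external products of zero-cycles and finite fields
-/

set_option autoImplicit false

namespace Pool.Agent.H837.UF

open MvPolynomial Pool.Agent.Y148.OD
open Filter hiding map

theorem map_term {K L : Type} [CommRing K] [CommRing L] (φ : K →+* L) {τ : Type} {n m : ℕ}
    (z : Fin n → Bool × Fin m → τ → K) (t : Term n m) (b : Fin n → τ) : φ (term z t b) =
      term (fun j q a => φ (z j q a)) t b := by
  rw [term, term, seg, seg, map_prod]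

theorem term_apply {J : Type} {K : J → Type} [∀ j, CommRing (K j)] {τ : Type} {n m : ℕ}
    (z : Fin n → Bool × Fin m → τ → ∀ j, K j) (t : Term n m) (b : Fin n → τ) (j : J) :
    term z t b j = term (fun i q a => z i q a j) t b :=
  map_term (Pi.evalRingHom K j) z t b

theorem term_mem {K : Type} [Field K] {τ : Type} {V : Set (τ → K)} {n m : ℕ}
    {z : Fin n → Bool × Fin m → τ → K} (hz : ∀ j q, z j q ∈ V) (t : Term n m) :
    term z t ∈ Pow V n :=
  ⟨_, fun _ => hz _ _, rfl⟩

section Los

variable {J : Type} {U : Ultrafilter J} {K : J → Type} [∀ j, Field (K j)] {L : Type} [Field L]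
  {π : (∀ j, K j) →+* L} {τ : Type} [Fintype τ]

theorem pow_lim (hπ : IsUltra U π) {V : Set (τ → L)} {W : ∀ j, Set (τ → K j)} (hV : IsLim U π V W)
    (n : ℕ) : IsLim U π (Pow V n) fun j => Pow (W j) n := by
  classical
  intro v
  constructor
  · rintro ⟨z, hz, hvz⟩
    choose z' hz' using fun i a => hπ.surj (z i a)
    obtain rfl : (fun i a => π (z' i a)) = z := _root_.funext fun i => _root_.funext fun a => hz' i a
    have h1 : ∀ᶠ j in U, ∀ i, (fun a => z' i a j) ∈ W j := by
      rw [eventually_all]
      intro i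
      exact (hV (z' i)).mp (hz i)
    have h2 : ∀ᶠ j in U, ∀ a, v a j = (seg z' a) j := by
      rw [eventually_all]
      intro a
      refine (hπ.eq_iff (v a) (seg z' a)).mp ?_
      have h3 := congrFun hvz a
      rw [h3, seg, seg, map_prod]
    filter_upwards [h1, h2] with j hj1 hj2
    refine ⟨fun i a => z' i a j, hj1, _root_.funext fun a => ?_⟩
    rw [hj2, seg, seg, Finset.prod_apply]
  · intro h
    obtain ⟨z, hz⟩ := eventually_choose (A := fun j => Fin n → τ → K j) h
    refine ⟨fun i a => π fun j => z j i a, fun i => ?_, _root_.funext fun a => ?_⟩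
    · refine (hV fun a j => z j i a).mpr ?_
      filter_upwards [hz] with j hj
      exact hj.1 i
    · show π (v a) = ∏ i, π fun j => z j i (a i)
      rw [← map_prod, hπ.eq_iff]
      filter_upwards [hz] with j hj
      have h3 := congrFun hj.2 a
      rw [Finset.prod_apply]
      exact h3

theorem ratEqT_lim (hπ : IsUltra U π) {V : Set (τ → L)} {W : ∀ j, Set (τ → K j)}
    (hV : IsLim U π V W) (c : ℕ) {A B : Type} [Fintype A] [Fintype B]
    (hAB : Fintype.card A = Fintype.card B) (x : A → τ → ∀ j, K j) (y : B → τ → ∀ j, K j) :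
    RatEqT V c (fun i b => π (x i b)) (fun i b => π (y i b)) ↔
      ∀ᶠ j in U, RatEqT (W j) c (fun i b => x i b j) (fun i b => y i b j) := by
  have eA := (Fintype.equivFin A).symm
  have eB := (Fintype.equivFin B).symm
  rw [← hAB] at eB
  rw [ratEqT_iff eA eB]
  refine (ratEq_iff hπ hV c (fun i b => x (eA i) b) (fun i b => y (eB i) b)).trans ?_
  refine eventually_congr (Eventually.of_forall fun j => ?_)
  exact (ratEqT_iff eA eB (fun i b => x i b j) (fun i b => y i b j)).symm



theorem eval_lim (hπ : IsUltra U π) {R σ : Type} [CommRing R] (P : MvPolynomial σ R)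
    (φ : R →+* (∀ j, K j)) (v : σ → ∀ j, K j) :
    eval (fun a => π (v a)) (map (π.comp φ) P) = 0 ↔
      ∀ᶠ j in U, eval (fun a => v a j) (map ((Pi.evalRingHom K j).comp φ) P) = 0 := by
  have h1 : eval (fun a => π (v a)) (map (π.comp φ) P) = π (eval v (map φ P)) := by
    rw [eval_map, eval_map]
    exact (eval₂_comp_left _ _ _ P).symm
  have h3 : ∀ j : J, (eval v (map φ P) : ∀ j, K j) j =
      eval (fun a => v a j) (map ((Pi.evalRingHom K j).comp φ) P) := by
    intro j
    have h2 : Pi.evalRingHom K j (eval v (map φ P)) =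
        eval₂ ((Pi.evalRingHom K j).comp φ) (fun a => v a j) P := by
      rw [eval_map]
      exact eval₂_comp_left _ _ _ P
    exact h2.trans (eval_map _ _ _).symm
  rw [h1, hπ.ker]
  refine eventually_congr (Eventually.of_forall fun j => ?_)
  rw [h3]

end Los

/-- The points `z (true, i)`, `z (false, i)` satisfy the equations in `T`, after applying `φ` to the
coefficients. -/
def Related {R : Type} [CommRing R] {r m : ℕ}
    (T : Finset (MvPolynomial ((Bool × Fin m) × Fin (r + 1)) R)) {K : Type} [Field K] (φ : R →+* K)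
    (z : Bool × Fin m → Fin (r + 1) → K) : Prop :=
  ∀ P ∈ T, eval (fun q => z q.1 q.2) (map φ P) = 0

/-- The alternating sum `∑ sgn(σ) a (σ 0) × … × a (σ (n - 1))` in the group of zero-cycles on the
`n`-th power modulo rational equivalence, where `a j` is the zero-cycle `∑ [z j (true, i)] - ∑ [z j
(false, i)]`. -/
noncomputable def alt {τ : Type} [Fintype τ] (V : Set (τ → ℂ)) {n m : ℕ}
    (z : Fin n → Bool × Fin m → V) : CH (Pow V n) :=
  ∑ t : Term n m, sgn t • pcl (Pow V n) ⟨term (fun j q => z j q) t, term_mem (fun j q => (z j q).2) t⟩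

/-- For all points `z j q` of the variety given by `S` and `φ` which satisfy the equations `T` for all
`j` there is a positive `N ≤ c` such that the zero-cycles given by the positive terms and by the negative
terms of the alternating sum of the products of the zero-cycles `∑ [z j (true, i)] - ∑ [z j (false,
i)]`, multiplied by `N`, are rationally equivalent with complexity at most `c` on the `n`-th power of
the variety. -/
def AltZero {R : Type} [CommRing R] {r m : ℕ} (S : Finset (MvPolynomial (Fin (r + 1)) R))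
    (T : Finset (MvPolynomial ((Bool × Fin m) × Fin (r + 1)) R)) {K : Type} [Field K] (φ : R →+* K)
    (n c : ℕ) : Prop :=
  ∀ z : Fin n → Bool × Fin m → Fin (r + 1) → K, (∀ j q, z j q ∈ Cone S φ) →
    (∀ j, Related T φ (z j)) → ∃ N : ℕ, 1 ≤ N ∧ N ≤ c ∧ RatEqT (Pow (Cone S φ) n) c
      (fun a : Fin N × {t : Term n m // sgn t = 1} => term z a.2)
      (fun a : Fin N × {t : Term n m // sgn t = -1} => term z a.2)

theorem sum_sgn {A : Type} [AddCommGroup A] {n m : ℕ} (f : Term n m → A) (N : ℕ) :
    N • ∑ t : Term n m, sgn t • f t = ∑ a : Fin N × {t : Term n m // sgn t = 1}, f a.2 -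
      ∑ a : Fin N × {t : Term n m // sgn t = -1}, f a.2 := by
  classical
  have key : ∀ e : ℤ, ∑ a : Fin N × {t : Term n m // sgn t = e}, f a.2 =
      N • ∑ t : {t : Term n m // sgn t = e}, f t := by
    intro e
    rw [Fintype.sum_prod_type]
    show ∑ _x : Fin N, ∑ y : {t : Term n m // sgn t = e}, f y = _
    rw [Finset.sum_const, Finset.card_univ, Fintype.card_fin]
  rw [key, key, ← nsmul_sub]
  congr 1
  have h1 : ∑ t : {t : Term n m // sgn t = 1}, f t = ∑ t with sgn t = 1, f t := by
    rw [Finset.sum_subtype (Finset.univ.filter fun t : Term n m => sgn t = 1)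
      (p := fun t => sgn t = 1) (fun t => by simp) f]
  have h2 : ∑ t : {t : Term n m // sgn t = -1}, f t = ∑ t with sgn t = -1, f t := by
    rw [Finset.sum_subtype (Finset.univ.filter fun t : Term n m => sgn t = -1)
      (p := fun t => sgn t = -1) (fun t => by simp) f]
  rw [h1, h2, Finset.sum_filter, Finset.sum_filter, ← Finset.sum_sub_distrib]
  refine Finset.sum_congr rfl fun t _ => ?_
  rcases sgn_eq t with h | h <;> simp [h]

theorem card_terms {n m : ℕ} (hn : 0 < n) (N : ℕ) :
    Fintype.card (Fin N × {t : Term n m // sgn t = 1}) =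
      Fintype.card (Fin N × {t : Term n m // sgn t = -1}) := by
  obtain ⟨k, rfl⟩ := Nat.exists_eq_succ_of_ne_zero hn.ne'
  exact Fintype.card_congr (Equiv.prodCongr (Equiv.refl _) posNeg)

theorem alt_iff {τ : Type} [Fintype τ] {V : Set (τ → ℂ)} (hV0 : ∀ v ∈ V, v ≠ 0) {n m : ℕ}
    (hn : 0 < n) (hm : 0 < m) (z : Fin n → Bool × Fin m → V) (N : ℕ) :
    N • alt V z = 0 ↔ ∃ c, RatEqT (Pow V n) c
      (fun a : Fin N × {t : Term n m // sgn t = 1} => term (fun j q => (z j q : τ → ℂ)) a.2)
      (fun a : Fin N × {t : Term n m // sgn t = -1} => term (fun j q => (z j q : τ → ℂ)) a.2) := by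
  have hne : (Pow V n).Nonempty :=
    ⟨_, fun i => (z i (true, ⟨0, hm⟩) : τ → ℂ), fun i => (z i _).2, rfl⟩
  have h0 : ∀ v ∈ Pow V n, v ≠ 0 := by
    rintro v ⟨z, hz, rfl⟩
    exact seg_ne_zero fun i => hV0 _ (hz i)
  have h1 := pcl_iff hne h0 (card_terms hn N)
    (fun a : Fin N × {t : Term n m // sgn t = 1} =>
      (⟨term (fun j q => (z j q : τ → ℂ)) a.2, term_mem (fun j q => (z j q).2) a.2⟩ : Pow V n))
    (fun a : Fin N × {t : Term n m // sgn t = -1} =>
      (⟨term (fun j q => (z j q : τ → ℂ)) a.2, term_mem (fun j q => (z j q).2) a.2⟩ : Pow V n))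
  rw [← sub_eq_zero] at h1
  rw [alt, sum_sgn]
  exact h1

end Pool.Agent.H837.UF
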