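import Pool.Agent.H837.UF.Los

/-!
# Ultraproducts and rational equivalences of bounded complexity, second part
-/

set_option autoImplicit false

namespace Pool.Agent.H837.UF

open MvPolynomial
open Filter hiding map

section Map

variable {K L : Type} [CommRing K] [CommRing L] {τ : Type} [Fintype τ] (φ : K →+* L)

theorem map_lin (v : τ → K) : map φ (lin v) = lin fun a => φ (v a) := by
  rw [lin, lin, map_sum]
  refine Finset.sum_congr rfl fun a _ => ?_
  rw [map_mul, map_C, map_X]

theorem map_chow {n : ℕ} (x : Fin n → τ → K) : map φ (chow x) = chow fun i a => φ (x i a) := by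
  rw [chow, chow, map_prod]
  exact Finset.prod_congr rfl fun i _ => map_lin φ (x i)

end Map

variable {J : Type} {U : Ultrafilter J} {K : J → Type} [∀ j, Field (K j)] {L : Type} [Field L]
  {π : (∀ j, K j) →+* L} {τ : Type} [Fintype τ]

/-- `V` is the ultraproduct of the sets `W j` of vectors. -/
def IsLim (U : Ultrafilter J) (π : (∀ j, K j) →+* L) (V : Set (τ → L)) (W : ∀ j, Set (τ → K j)) :
    Prop :=
  ∀ v : τ → ∀ j, K j, ((fun a => π (v a)) ∈ V ↔ ∀ᶠ j in U, (fun a => v a j) ∈ W j)

theorem linked_iff (hπ : IsUltra U π) {V : Set (τ → L)} {W : ∀ j, Set (τ → K j)}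
    (hV : IsLim U π V W) (N d : ℕ) (f g : MvPolynomial τ (∀ j, K j)) :
    Linked V N d (map π f) (map π g) ↔
      ∀ᶠ j in U, Linked (W j) N d (map (Pi.evalRingHom K j) f) (map (Pi.evalRingHom K j) g) := by
  classical
  have key : ∀ (H : MvPolynomial τ (∀ j, K j)) (j : J) (a : ∀ j, K j) (z : Fin N → τ → ∀ j, K j),
      map (Pi.evalRingHom K j) (H - C a * chow z) =
        map (Pi.evalRingHom K j) H - C (a j) * chow fun i b => z i b j := by
    intro H j a z
    rw [map_sub, map_mul, map_C, map_chow]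
    rfl
  have keyL : ∀ (H : MvPolynomial τ (∀ j, K j)) (a : ∀ j, K j) (z : Fin N → τ → ∀ j, K j),
      map π (H - C a * chow z) = map π H - C (π a) * chow fun i b => π (z i b) := by
    intro H a z
    rw [map_sub, map_mul, map_C, map_chow]
  have sumK : ∀ (G : Fin (d + 1) → MvPolynomial τ (∀ j, K j)) (s : ∀ j, K j) (j : J),
      map (Pi.evalRingHom K j) (∑ i : Fin (d + 1), C (s ^ (i : ℕ)) * G i) =
        ∑ i : Fin (d + 1), C (s j ^ (i : ℕ)) * map (Pi.evalRingHom K j) (G i) := by
    intro G s j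
    rw [map_sum]
    refine Finset.sum_congr rfl fun i _ => ?_
    rw [map_mul, map_C, map_pow]
    rfl
  have sumL : ∀ (G : Fin (d + 1) → MvPolynomial τ (∀ j, K j)) (s : ∀ j, K j),
      map π (∑ i : Fin (d + 1), C (s ^ (i : ℕ)) * G i) =
        ∑ i : Fin (d + 1), C (π s ^ (i : ℕ)) * map π (G i) := by
    intro G s
    rw [map_sum]
    refine Finset.sum_congr rfl fun i _ => ?_
    rw [map_mul, map_C, map_pow]
  constructor
  · rintro ⟨G, hGh, hG0, hGd, hG⟩
    choose H hHh hH using fun i => hπ.exists_lift (hGh i)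
    have h0 : ∀ᶠ j in U, map (Pi.evalRingHom K j) (H 0) = map (Pi.evalRingHom K j) f :=
      (hπ.mv_eq _ _).mp (by rw [hH, hG0])
    have hd : ∀ᶠ j in U, map (Pi.evalRingHom K j) (H (Fin.last d)) =
        map (Pi.evalRingHom K j) g := (hπ.mv_eq _ _).mp (by rw [hH, hGd])
    have hs : ∀ᶠ j in U, ∀ s : K j, ∃ (a : K j) (z : Fin N → τ → K j), (∀ i, z i ∈ W j) ∧
        ∑ i : Fin (d + 1), C (s ^ (i : ℕ)) * map (Pi.evalRingHom K j) (H i) = C a * chow z := by
      by_contra hcon
      rw [← Ultrafilter.eventually_not] at hcon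
      have hcon' : ∀ᶠ j in U, ∃ s : K j, ¬ ∃ (a : K j) (z : Fin N → τ → K j), (∀ i, z i ∈ W j) ∧
          ∑ i : Fin (d + 1), C (s ^ (i : ℕ)) * map (Pi.evalRingHom K j) (H i) = C a * chow z := by
        filter_upwards [hcon] with j hj
        push Not at hj ⊢
        exact hj
      obtain ⟨s, hs⟩ := eventually_choose hcon'
      obtain ⟨a, z, hz, haz⟩ := hG (π s)
      obtain ⟨a', rfl⟩ := hπ.surj a
      choose z' hz' using fun i b => hπ.surj (z i b)
      have h1 : ∀ᶠ j in U, ∀ i, (fun b => z' i b j) ∈ W j := by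
        rw [eventually_all]
        intro i
        refine (hV (z' i)).mp ?_
        have : (fun b => π (z' i b)) = z i := funext fun b => hz' i b
        rw [this]
        exact hz i
      have h2 : map π ((∑ i : Fin (d + 1), C (s ^ (i : ℕ)) * H i) - C a' * chow z') = 0 := by
        rw [keyL, sumL, sub_eq_zero]
        have e1 : (fun i b => π (z' i b)) = z := funext fun i => funext fun b => hz' i b
        rw [e1, ← haz]
        exact Finset.sum_congr rfl fun i _ => by rw [hH]
      rw [hπ.mv_zero] at h2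
      obtain ⟨j, ⟨hj1, hj2⟩, hj3⟩ := ((h1.and h2).and hs).exists
      apply hj3
      refine ⟨a' j, fun i b => z' i b j, hj1, ?_⟩
      rw [key, sumK, sub_eq_zero] at hj2
      exact hj2
    filter_upwards [h0, hd, hs] with j hj0 hjd hjs
    exact ⟨fun i => map (Pi.evalRingHom K j) (H i), fun i => (hHh i).map _, hj0, hjd, hjs⟩
  · intro h
    obtain ⟨G, hG⟩ := eventually_choose (A := fun j => Fin (d + 1) → MvPolynomial τ (K j)) h
    choose H hHh hH using fun i : Fin (d + 1) => exists_glue (N := N) (fun j => G j i)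
    have hH' : ∀ᶠ j in U, ∀ i, map (Pi.evalRingHom K j) (H i) = G j i := by
      filter_upwards [hG] with j hj i
      exact hH i j (hj.1 i)
    refine ⟨fun i => map π (H i), fun i => (hHh i).map _, ?_, ?_, ?_⟩
    · rw [hπ.mv_eq]
      filter_upwards [hG, hH'] with j hj1 hj2
      rw [hj2, hj1.2.1]
    · rw [hπ.mv_eq]
      filter_upwards [hG, hH'] with j hj1 hj2
      rw [hj2, hj1.2.2.1]
    · intro s
      obtain ⟨s, rfl⟩ := hπ.surj s
      have h1 : ∀ᶠ j in U, ∃ az : K j × (Fin N → τ → K j), (∀ i, az.2 i ∈ W j) ∧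
          ∑ i : Fin (d + 1), C (s j ^ (i : ℕ)) * G j i = C az.1 * chow az.2 := by
        filter_upwards [hG] with j hj
        obtain ⟨a, z, hz, haz⟩ := hj.2.2.2 (s j)
        exact ⟨(a, z), hz, haz⟩
      obtain ⟨az, haz⟩ := eventually_choose h1
      refine ⟨π fun j => (az j).1, fun i b => π fun j => (az j).2 i b, fun i => ?_, ?_⟩
      · refine (hV fun b j => (az j).2 i b).mpr ?_
        filter_upwards [haz] with j hj
        exact hj.1 i
      · have h2 : map π ((∑ i : Fin (d + 1), C (s ^ (i : ℕ)) * H i) -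
            C (fun j => (az j).1) * chow fun i b j => (az j).2 i b) = 0 := by
          rw [hπ.mv_zero]
          filter_upwards [haz, hH'] with j hj1 hj2
          rw [key, sumK, sub_eq_zero]
          have e1 : ∑ i : Fin (d + 1), C (s j ^ (i : ℕ)) * map (Pi.evalRingHom K j) (H i) =
              ∑ i : Fin (d + 1), C (s j ^ (i : ℕ)) * G j i :=
            Finset.sum_congr rfl fun i _ => by rw [hj2]
          rw [e1, hj1.2]
        rw [keyL, sumL, sub_eq_zero] at h2
        exact h2

theorem ratEq_iff (hπ : IsUltra U π) {V : Set (τ → L)} {W : ∀ j, Set (τ → K j)}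
    (hV : IsLim U π V W) (c : ℕ) {n : ℕ} (x y : Fin n → τ → ∀ j, K j) :
    RatEq V c (fun i b => π (x i b)) (fun i b => π (y i b)) ↔
      ∀ᶠ j in U, RatEq (W j) c (fun i b => x i b j) (fun i b => y i b j) := by
  classical
  have keyL : ∀ (a : ∀ j, K j) (x : Fin n → τ → ∀ j, K j) (w : Fin c → τ → ∀ j, K j),
      map π (C a * (chow x * chow w)) =
        C (π a) * (chow (fun i b => π (x i b)) * chow fun i b => π (w i b)) := by
    intro a x w
    rw [map_mul, map_C, map_mul, map_chow, map_chow]
  have keyK : ∀ (j : J) (a : ∀ j, K j) (x : Fin n → τ → ∀ j, K j) (w : Fin c → τ → ∀ j, K j),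
      map (Pi.evalRingHom K j) (C a * (chow x * chow w)) =
        C (a j) * (chow (fun i b => x i b j) * chow fun i b => w i b j) := by
    intro j a x w
    rw [map_mul, map_C, map_mul, map_chow, map_chow]
    rfl
  constructor
  · rintro ⟨w, a, b, hw, ha, hb, h⟩
    obtain ⟨a', rfl⟩ := hπ.surj a
    obtain ⟨b', rfl⟩ := hπ.surj b
    choose w' hw' using fun i b => hπ.surj (w i b)
    have e1 : (fun i b => π (w' i b)) = w := funext fun i => funext fun b => hw' i b
    rw [← e1, ← keyL, ← keyL, linked_iff hπ hV] at h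
    have h1 : ∀ᶠ j in U, ∀ i, (fun b => w' i b j) ∈ W j := by
      rw [eventually_all]
      intro i
      refine (hV (w' i)).mp ?_
      have : (fun b => π (w' i b)) = w i := funext fun b => hw' i b
      rw [this]
      exact hw i
    filter_upwards [h, h1, (hπ.ne_iff a').mp ha, (hπ.ne_iff b').mp hb] with j hj1 hj2 hj3 hj4
    rw [keyK, keyK] at hj1
    exact ⟨fun i b => w' i b j, a' j, b' j, hj2, hj3, hj4, hj1⟩
  · intro h
    have h1 : ∀ᶠ j in U, ∃ q : (Fin c → τ → K j) × K j × K j, (∀ i, q.1 i ∈ W j) ∧ q.2.1 ≠ 0 ∧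
        q.2.2 ≠ 0 ∧ Linked (W j) (n + c) c (C q.2.1 * (chow (fun i b => x i b j) * chow q.1))
          (C q.2.2 * (chow (fun i b => y i b j) * chow q.1)) := by
      filter_upwards [h] with j hj
      obtain ⟨w, a, b, hw, ha, hb, hL⟩ := hj
      exact ⟨(w, a, b), hw, ha, hb, hL⟩
    obtain ⟨q, hq⟩ := eventually_choose h1
    refine ⟨fun i b => π fun j => (q j).1 i b, π fun j => (q j).2.1, π fun j => (q j).2.2,
      fun i => ?_, ?_, ?_, ?_⟩
    · refine (hV fun b j => (q j).1 i b).mpr ?_
      filter_upwards [hq] with j hj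
      exact hj.1 i
    · rw [hπ.ne_iff]
      filter_upwards [hq] with j hj
      exact hj.2.1
    · rw [hπ.ne_iff]
      filter_upwards [hq] with j hj
      exact hj.2.2.1
    · rw [← keyL, ← keyL, linked_iff hπ hV]
      filter_upwards [hq] with j hj
      rw [keyK, keyK]
      exact hj.2.2.2

/-! ### Reductions -/

theorem cone_lim (hπ : IsUltra U π) {R : Type} [CommRing R] {r : ℕ}
    (S : Finset (MvPolynomial (Fin (r + 1)) R)) (φ : R →+* (∀ j, K j)) :
    IsLim U π (Cone S (π.comp φ)) fun j => Cone S ((Pi.evalRingHom K j).comp φ) := by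
  classical
  intro v
  have h0 : ((fun a => π (v a)) ≠ 0) ↔ ∀ᶠ j in U, (fun a => v a j) ≠ 0 := by
    rw [Ultrafilter.eventually_not, not_iff_not]
    constructor
    · intro h
      have h1 : ∀ᶠ j in U, ∀ a, v a j = 0 := by
        rw [eventually_all]
        intro a
        rw [← hπ.ker]
        exact congrFun h a
      filter_upwards [h1] with j hj
      exact funext hj
    · intro h
      funext a
      show π (v a) = 0
      rw [hπ.ker]
      filter_upwards [h] with j hj
      exact congrFun hj a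
  have h1 : ∀ P : MvPolynomial (Fin (r + 1)) R,
      eval (fun a => π (v a)) (map (π.comp φ) P) = π (eval v (map φ P)) := by
    intro P
    rw [eval_map, eval_map]
    exact (eval₂_comp_left _ _ _ P).symm
  have h3 : ∀ (P : MvPolynomial (Fin (r + 1)) R) (j : J),
      (eval v (map φ P) : ∀ j, K j) j =
        eval (fun a => v a j) (map ((Pi.evalRingHom K j).comp φ) P) := by
    intro P j
    have h2 : Pi.evalRingHom K j (eval v (map φ P)) =
        eval₂ ((Pi.evalRingHom K j).comp φ) (fun a => v a j) P := by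
      rw [eval_map]
      exact eval₂_comp_left _ _ _ P
    exact h2.trans (eval_map _ _ _).symm
  refine Iff.trans ?_ (eventually_and (f := (U : Filter J))
    (p := fun j => (fun a => v a j) ≠ 0)
    (q := fun j => ∀ P ∈ S, eval (fun a => v a j) (map ((Pi.evalRingHom K j).comp φ) P) = 0)).symm
  refine and_congr h0 ?_
  rw [Finset.eventually_all]
  refine forall₂_congr fun P _ => ?_
  rw [h1, hπ.ker]
  refine eventually_congr (Eventually.of_forall fun j => ?_)
  rw [h3]

theorem plane_iff (hπ : IsUltra U π) {R : Type} [CommRing R] {r : ℕ} (l : Fin (r + 1) → R)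
    (φ : R →+* (∀ j, K j)) (v : Fin (r + 1) → ∀ j, K j) :
    ∑ a, (π.comp φ) (l a) * π (v a) = 0 ↔
      ∀ᶠ j in U, ∑ a, ((Pi.evalRingHom K j).comp φ) (l a) * v a j = 0 := by
  have h1 : ∑ a, (π.comp φ) (l a) * π (v a) = π (∑ a, φ (l a) * v a) := by
    rw [map_sum]
    refine Finset.sum_congr rfl fun a _ => ?_
    rw [map_mul]
    rfl
  rw [h1, hπ.ker]
  refine eventually_congr (Eventually.of_forall fun j => ?_)
  rw [Finset.sum_apply]
  rfl

end Pool.Agent.H837.UF
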