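import Pool.Agent.H837.UF.Final

/-!
# Alternating sums of external products of zero-cycles: definitions and rational equivalence
-/

set_option autoImplicit false

namespace Pool.Agent.H837.UF

open MvPolynomial Pool.Agent.Y148.OD
open Filter hiding map

section Defs

variable {K : Type} [Field K] {τ : Type} [Fintype τ]

/-- The effective zero-cycles `∑ [x i]` (`i` in `A`) and `∑ [y i]` (`i` in `B`) are rationally
equivalent with complexity at most `c`: for a zero-cycle `∑ [w i]` of degree `c` the zero-cycles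
`∑ [x i] + ∑ [w i]` and `∑ [y i] + ∑ [w i]` are the values at `0` and `∞` of a family of degree `c` of
effective zero-cycles on the variety with the cone `V`. -/
def RatEqT (V : Set (τ → K)) (c : ℕ) {A B : Type} [Fintype A] [Fintype B] (x : A → τ → K)
    (y : B → τ → K) : Prop :=
  ∃ (w : Fin c → τ → K) (a b : K), (∀ i, w i ∈ V) ∧ a ≠ 0 ∧ b ≠ 0 ∧
    Linked V (Fintype.card A + c) c (C a * ((∏ i, lin (x i)) * chow w))
      (C b * ((∏ i, lin (y i)) * chow w))

/-- The vector of the Segre coordinates of the point `(z 0, …, z (n - 1))` of the `n`-th power. -/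
def seg {K : Type} [CommRing K] {τ : Type} {n : ℕ} (z : Fin n → τ → K) : (Fin n → τ) → K :=
  fun a => ∏ i, z i (a i)

/-- The cone of the `n`-th power, embedded by the Segre embedding, of the variety with the cone `V`. -/
def Pow (V : Set (τ → K)) (n : ℕ) : Set ((Fin n → τ) → K) :=
  {v | ∃ z : Fin n → τ → K, (∀ i, z i ∈ V) ∧ v = seg z}

/-- The terms of the sum of the `sgn(σ) a (σ 0) × … × a (σ (n - 1))`, where `a j` is the zero-cycle
`∑ [z j (true, i)] - ∑ [z j (false, i)]` (`i = 0, …, m - 1`). -/
abbrev Term (n m : ℕ) : Type := Equiv.Perm (Fin n) × (Fin n → Bool × Fin m)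

/-- The sign of a term. -/
def sgn {n m : ℕ} (t : Term n m) : ℤ :=
  (Equiv.Perm.sign t.1 : ℤ) * ∏ i, if (t.2 i).1 then 1 else -1

/-- The point of the `n`-th power which belongs to a term. -/
def term {K : Type} [CommRing K] {τ : Type} {n m : ℕ} (z : Fin n → Bool × Fin m → τ → K)
    (t : Term n m) : (Fin n → τ) → K :=
  seg fun i => z (t.1 i) (t.2 i)

end Defs

section Rat

variable {K : Type} [Field K] {τ : Type} [Fintype τ]

theorem ratEqT_iff {V : Set (τ → K)} {c n : ℕ} {A B : Type} [Fintype A] [Fintype B]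
    (eA : Fin n ≃ A) (eB : Fin n ≃ B) (x : A → τ → K) (y : B → τ → K) :
    RatEqT V c x y ↔ RatEq V c (fun i => x (eA i)) (fun i => y (eB i)) := by
  have hA : Fintype.card A = n := by
    rw [← Fintype.card_congr eA, Fintype.card_fin]
  have h1 : ∏ i, lin (x i) = chow fun i => x (eA i) := (Equiv.prod_comp eA fun i => lin (x i)).symm
  have h2 : ∏ i, lin (y i) = chow fun i => y (eB i) := (Equiv.prod_comp eB fun i => lin (y i)).symm
  rw [RatEqT, RatEq, hA, h1, h2]

theorem RatEqT.mono {V : Set (τ → K)} {c c' : ℕ} {A B : Type} [Fintype A] [Fintype B]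
    {x : A → τ → K} {y : B → τ → K} (h : RatEqT V c x y) (hAB : Fintype.card A = Fintype.card B)
    (hV : V.Nonempty) (hc : c ≤ c') : RatEqT V c' x y := by
  have eA := (Fintype.equivFin A).symm
  have eB := (Fintype.equivFin B).symm
  rw [← hAB] at eB
  rw [ratEqT_iff eA eB] at h ⊢
  exact h.mono hV hc

omit [Fintype τ] in
theorem seg_ne_zero {n : ℕ} {z : Fin n → τ → K} (h : ∀ i, z i ≠ 0) : seg z ≠ 0 := by
  have h1 : ∀ i, ∃ a, z i a ≠ 0 := by
    intro i
    by_contra hcon
    push Not at hcon
    exact h i (_root_.funext hcon)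
  choose a ha using h1
  intro h0
  have h2 := congrFun h0 a
  exact Finset.prod_ne_zero_iff.mpr (fun i _ => ha i) h2

theorem sgn_eq {n m : ℕ} (t : Term n m) : sgn t = 1 ∨ sgn t = -1 := by
  have h1 : ∀ (s : Finset (Fin n)), (∏ i ∈ s, if (t.2 i).1 then (1 : ℤ) else -1) = 1 ∨
      (∏ i ∈ s, if (t.2 i).1 then (1 : ℤ) else -1) = -1 := by
    classical
    intro s
    induction s using Finset.induction_on with
    | empty => exact Or.inl Finset.prod_empty
    | insert i s hi ih =>
      rw [Finset.prod_insert hi]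
      rcases ih with ih | ih <;> rw [ih] <;> by_cases h : (t.2 i).1 = true <;> simp [h]
  rw [sgn]
  rcases h1 Finset.univ with h | h <;> rcases Int.units_eq_one_or (Equiv.Perm.sign t.1) with h' | h' <;>
    rw [h, h'] <;> simp

/-- Changing the sign of the first factor. -/
def flip {n m : ℕ} (t : Term (n + 1) m) : Term (n + 1) m :=
  (t.1, fun i => if i = 0 then (!(t.2 i).1, (t.2 i).2) else t.2 i)

theorem flip_flip {n m : ℕ} (t : Term (n + 1) m) : flip (flip t) = t := by
  refine Prod.ext rfl (_root_.funext fun i => ?_)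
  by_cases h : i = 0
  · simp [flip, h]
  · simp [flip, h]

theorem sgn_flip {n m : ℕ} (t : Term (n + 1) m) : sgn (flip t) = - sgn t := by
  have h1 : (∏ i, if ((flip t).2 i).1 then (1 : ℤ) else -1) =
      - ∏ i, if (t.2 i).1 then (1 : ℤ) else -1 := by
    rw [Fin.prod_univ_succ, Fin.prod_univ_succ, ← neg_mul]
    congr 1
    · simp only [flip, if_true]
      cases (t.2 0).1 <;> simp
  rw [sgn, sgn, h1]
  show (Equiv.Perm.sign t.1 : ℤ) * _ = _
  ring

/-- There are as many positive terms as negative ones. -/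
def posNeg {n m : ℕ} : {t : Term (n + 1) m // sgn t = 1} ≃ {t : Term (n + 1) m // sgn t = -1} where
  toFun t := ⟨flip t.1, by rw [sgn_flip, t.2]⟩
  invFun t := ⟨flip t.1, by rw [sgn_flip, t.2, neg_neg]⟩
  left_inv t := Subtype.ext (flip_flip _)
  right_inv t := Subtype.ext (flip_flip _)

end Rat

section Complex

variable {τ : Type} [Fintype τ]

/-- The group of zero-cycles on the projective variety with the cone `V`, modulo rational
equivalence. -/
abbrev CH (V : Set (τ → ℂ)) : Type := FreeAbelianGroup V ⧸ ratSub (vlin V)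

/-- The class of a point, given by a vector of homogeneous coordinates. -/
noncomputable def pcl (V : Set (τ → ℂ)) (v : V) : CH V := QuotientAddGroup.mk (FreeAbelianGroup.of v)

theorem sum_pcl {V : Set (τ → ℂ)} {A : Type} [Fintype A] (v : A → V) :
    ∑ i, pcl V (v i) = QuotientAddGroup.mk (∑ i, FreeAbelianGroup.of (v i)) :=
  (map_sum (QuotientAddGroup.mk' (ratSub (vlin V))) _ _).symm

theorem pcl_iff {V : Set (τ → ℂ)} (hV : V.Nonempty) (hV0 : ∀ v ∈ V, v ≠ 0) {A B : Type} [Fintype A]
    [Fintype B] (hAB : Fintype.card A = Fintype.card B) (x : A → V) (y : B → V) :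
    ∑ i, pcl V (x i) = ∑ i, pcl V (y i) ↔
      ∃ c, RatEqT V c (fun i => (x i : τ → ℂ)) (fun i => (y i : τ → ℂ)) := by
  have eA := (Fintype.equivFin A).symm
  have eB := (Fintype.equivFin B).symm
  rw [← hAB] at eB
  have h1 := rat_iff hV hV0 (fun i => x (eA i)) (fun i => y (eB i))
  rw [← Equiv.sum_comp eA (fun i => pcl V (x i)), ← Equiv.sum_comp eB (fun i => pcl V (y i)),
    sum_pcl, sum_pcl, QuotientAddGroup.eq_iff_sub_mem]
  refine h1.trans (exists_congr fun c => ?_)
  exact (ratEqT_iff eA eB (fun i => (x i : τ → ℂ)) (fun i => (y i : τ → ℂ))).symm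

end Complex

end Pool.Agent.H837.UF
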