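import Pool.Agent.H837.UF.Alt2
import Pool.Agent.H837.UF.Transfer

/-!
# Alternating sums of external products of zero-cycles and finite fields: the equivalences
-/

set_option autoImplicit false

namespace Pool.Agent.H837.UF

open MvPolynomial Pool.Agent.Y148.OD
open Filter hiding map

variable {R : Type} [CommRing R]

variable {r m : ℕ} (S : Finset (MvPolynomial (Fin (r + 1)) R))
  (T : Finset (MvPolynomial ((Bool × Fin m) × Fin (r + 1)) R))

theorem alt_step₁ (hm : 0 < m) {n : ℕ} (hn : 0 < n)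
    {J : Type} {K : J → Type} [∀ j, Field (K j)] {U : Ultrafilter J} {φ : ∀ j, R →+* K j}
    {π : (∀ j, K j) →+* ℂ} (hπ : IsUltra U π) (c : J → ℕ) (hc : ∀ m, ∀ᶠ j in U, m ≤ c j)
    (hno : ∀ j, ¬ AltZero S T (φ j) n (c j)) :
    ∃ z : Fin n → Bool × Fin m → Cone S (π.comp (RingHom.pi φ)),
      (∀ j, Related T (π.comp (RingHom.pi φ)) fun q => (z j q : Fin (r + 1) → ℂ)) ∧
      ∀ N : ℕ, 1 ≤ N → N • alt (Cone S (π.comp (RingHom.pi φ))) z ≠ 0 := by
  have hlim := cone_lim hπ S (RingHom.pi φ)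
  simp only [AltZero] at hno
  push Not at hno
  choose z hz hR hno using hno
  have hz' : ∀ i q, (fun a => π fun j => z j i q a) ∈ Cone S (π.comp (RingHom.pi φ)) := fun i q =>
    (hlim fun a j => z j i q a).mpr (Eventually.of_forall fun j => hz j i q)
  refine ⟨fun i q => ⟨_, hz' i q⟩, fun i P hP => ?_, fun N hN h0 => ?_⟩
  · exact (eval_lim hπ P (RingHom.pi φ) fun q j => z j i q.1 q.2).mpr
      (Eventually.of_forall fun j => hR j i P hP)
  rw [alt_iff (fun v hv => hv.1) hn hm] at h0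
  obtain ⟨d, hd⟩ := h0
  have h1 := (ratEqT_lim hπ (pow_lim hπ hlim n) d (card_terms hn N)
    (fun a : Fin N × {t : Term n m // sgn t = 1} => term (fun i q a j => z j i q a) a.2)
    (fun a : Fin N × {t : Term n m // sgn t = -1} => term (fun i q a j => z j i q a) a.2)).mp (by
        simp only [map_term]
        exact hd)
  obtain ⟨j, hj1, hj2⟩ := (h1.and (hc (max N d))).exists
  simp only [term_apply] at hj1
  refine hno j N hN ((le_max_left _ _).trans hj2) (RatEqT.mono hj1 (card_terms hn N) ?_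
    ((le_max_right _ _).trans hj2))
  exact ⟨_, fun i => z j i (true, ⟨0, hm⟩), fun i => hz j i _, rfl⟩

theorem alt_step₂ (hm : 0 < m) {n : ℕ} (hn : 0 < n)
    {J : Type} {K : J → Type} [∀ j, Field (K j)] {U : Ultrafilter J} {φ : ∀ j, R →+* K j}
    {π : (∀ j, K j) →+* ℂ} (hπ : IsUltra U π) (c : ℕ) (h : ∀ j, AltZero S T (φ j) n c)
    (z : Fin n → Bool × Fin m → Cone S (π.comp (RingHom.pi φ)))
    (hz : ∀ j, Related T (π.comp (RingHom.pi φ)) fun q => (z j q : Fin (r + 1) → ℂ)) :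
    c.factorial • alt (Cone S (π.comp (RingHom.pi φ))) z = 0 := by
  have hlim := cone_lim hπ S (RingHom.pi φ)
  choose z' hz' using fun i q a => hπ.surj ((z i q : Fin (r + 1) → ℂ) a)
  have ez : (fun i q a => π (z' i q a)) = fun i q => (z i q : Fin (r + 1) → ℂ) :=
    _root_.funext fun i => _root_.funext fun q => _root_.funext (hz' i q)
  have h1 : ∀ᶠ j in U, ∀ i q, (fun a => z' i q a j) ∈ Cone S (φ j) := by
    rw [eventually_all]
    intro i
    rw [eventually_all]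
    intro q
    refine (hlim (z' i q)).mp ?_
    rw [congrFun (congrFun ez i) q]
    exact (z i q).2
  have h2 : ∀ᶠ j in U, ∀ i, Related T (φ j) fun q a => z' i q a j := by
    rw [eventually_all]
    intro i
    simp only [Related]
    rw [Finset.eventually_all]
    intro P hP
    refine (eval_lim hπ P (RingHom.pi φ) fun q => z' i q.1 q.2).mp ?_
    have h3 := hz i P hP
    rw [← congrFun ez i] at h3
    exact h3
  have h3 : ∀ᶠ j in U, ∃ N : Fin (c + 1), 1 ≤ (N : ℕ) ∧ RatEqT (Pow (Cone S (φ j)) n) c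
      (fun a : Fin N × {t : Term n m // sgn t = 1} => fun b => term z' a.2 b j)
      (fun a : Fin N × {t : Term n m // sgn t = -1} => fun b => term z' a.2 b j) := by
    filter_upwards [h1, h2] with j hj1 hj2
    obtain ⟨N, hN1, hN2, hN⟩ := h j _ hj1 hj2
    refine ⟨⟨N, by omega⟩, hN1, ?_⟩
    simp only [term_apply]
    exact hN
  obtain ⟨N, hN⟩ := eventually_exists_finite h3
  obtain ⟨j, hj⟩ := hN.exists
  have h4 := (ratEqT_lim hπ (pow_lim hπ hlim n) c (card_terms hn N)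
    (fun a : Fin N × {t : Term n m // sgn t = 1} => term z' a.2)
    (fun a : Fin N × {t : Term n m // sgn t = -1} => term z' a.2)).mpr
      (hN.mono fun j hj => hj.2)
  simp only [map_term] at h4
  rw [ez] at h4
  have h5 := (alt_iff (fun v hv => hv.1) hn hm z N).mpr ⟨c, h4⟩
  obtain ⟨d, hd⟩ := Nat.dvd_factorial hj.1 (Nat.lt_succ_iff.mp N.2)
  rw [hd, mul_nsmul, h5, nsmul_zero]

theorem alt_main [Algebra.FiniteType ℤ R] (hm : 0 < m) (ι : R →+* ℂ) (hι : Function.Injective ι)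
    {n : ℕ} (hn : 0 < n) :
    List.TFAE
      [∀ z : Fin n → Bool × Fin m → Cone S ι, (∀ j, Related T ι fun q => (z j q : _ → ℂ)) →
         ∃ N : ℕ, 1 ≤ N ∧ N • alt (Cone S ι) z = 0,
       ∃ N : ℕ, 1 ≤ N ∧ ∀ z : Fin n → Bool × Fin m → Cone S ι,
         (∀ j, Related T ι fun q => (z j q : _ → ℂ)) → N • alt (Cone S ι) z = 0,
       ∃ (h : R) (c p₀ : ℕ), h ≠ 0 ∧ ∀ (p : ℕ) [Fact p.Prime], p₀ ≤ p →
         ∀ φ : R →+* AlgebraicClosure (ZMod p), φ h ≠ 0 → AltZero S T φ n c,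
       ∃ c : ℕ, ∀ h : R, h ≠ 0 → ∀ p₀ : ℕ, ∃ (p : ℕ) (_ : Fact p.Prime)
         (φ : R →+* AlgebraicClosure (ZMod p)), p₀ ≤ p ∧ φ h ≠ 0 ∧ AltZero S T φ n c] := by
  have ht₁ := transfer ι hι (∀ z : Fin n → Bool × Fin m → Cone S ι,
      (∀ j, Related T ι fun q => (z j q : _ → ℂ)) → ∃ N : ℕ, 1 ≤ N ∧ N • alt (Cone S ι) z = 0)
    (fun _ _ φ c => AltZero S T φ n c) (fun p _ φ π hπ hc hno hQ => by
      subst hc
      obtain ⟨z, hz, hxy⟩ := alt_step₁ S T hm hn hπ (fun j => j)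
        (fun m => Nat.hyperfilter_le_atTop (eventually_ge_atTop m)) hno
      obtain ⟨N, hN, h0⟩ := hQ z hz
      exact hxy N hN h0) (fun p _ φ π hπ hc c h => by
      subst hc
      exact fun z hz => ⟨_, Nat.factorial_pos c, alt_step₂ S T hm hn hπ c h z hz⟩)
  have ht₂ := transfer ι hι (∃ N : ℕ, 1 ≤ N ∧ ∀ z : Fin n → Bool × Fin m → Cone S ι,
      (∀ j, Related T ι fun q => (z j q : _ → ℂ)) → N • alt (Cone S ι) z = 0)
    (fun _ _ φ c => AltZero S T φ n c) (fun p _ φ π hπ hc hno hQ => by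
      subst hc
      obtain ⟨z, hz, hxy⟩ := alt_step₁ S T hm hn hπ (fun j => j)
        (fun m => Nat.hyperfilter_le_atTop (eventually_ge_atTop m)) hno
      obtain ⟨N, hN, h0⟩ := hQ
      exact hxy N hN (h0 z hz)) (fun p _ φ π hπ hc c h => by
      subst hc
      exact ⟨_, Nat.factorial_pos c, fun z hz => alt_step₂ S T hm hn hπ c h z hz⟩)
  tfae_have 1 ↔ 3 := ht₁.out 0 1
  tfae_have 2 ↔ 3 := ht₂.out 0 1
  tfae_have 3 ↔ 4 := ht₁.out 1 2
  tfae_finish

end Pool.Agent.H837.UF
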