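import Mathlib

/-!
# Rational equivalences of bounded complexity on the reductions of a projective variety
-/

set_option autoImplicit false

namespace Pool.Agent.H837.UF

open MvPolynomial

section Chow

variable {K : Type} [CommRing K] {τ : Type} [Fintype τ]

/-- The linear form with the coefficients `v`. -/
noncomputable def lin (v : τ → K) : MvPolynomial τ K := ∑ a, C (v a) * X a

/-- The Chow form of the zero-cycle `∑ [x i]`, where the points are given by vectors of homogeneous
coordinates. -/
noncomputable def chow {n : ℕ} (x : Fin n → τ → K) : MvPolynomial τ K := ∏ i, lin (x i)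

end Chow

section Rational

variable {K : Type} [Field K] {τ : Type} [Fintype τ]

/-- The forms `f` and `g` of degree `N` are the values at `0` and `∞` of a family
`G 0 + G 1 s + … + G d s ^ d` of forms, of degree `d`, all of whose members are multiples (possibly
zero) of Chow forms of effective zero-cycles of degree `N` on the projective variety with the cone
`V`. That is, they are given by a morphism from the projective line to the symmetric product. -/
def Linked (V : Set (τ → K)) (N d : ℕ) (f g : MvPolynomial τ K) : Prop :=
  ∃ G : Fin (d + 1) → MvPolynomial τ K, (∀ i, (G i).IsHomogeneous N) ∧ G 0 = f ∧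
    G (Fin.last d) = g ∧ ∀ s : K, ∃ (a : K) (z : Fin N → τ → K), (∀ i, z i ∈ V) ∧
      ∑ i : Fin (d + 1), C (s ^ (i : ℕ)) * G i = C a * chow z

/-- The effective zero-cycles `∑ [x i]` and `∑ [y i]` of degree `n` are rationally equivalent with
complexity at most `c`: for a zero-cycle `∑ [w i]` of degree `c` the zero-cycles `∑ [x i] + ∑ [w i]`
and `∑ [y i] + ∑ [w i]` are the values at `0` and `∞` of a family of degree `c` of effective
zero-cycles of degree `n + c` on the variety with the cone `V`. -/
def RatEq (V : Set (τ → K)) (c : ℕ) {n : ℕ} (x y : Fin n → τ → K) : Prop :=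
  ∃ (w : Fin c → τ → K) (a b : K), (∀ i, w i ∈ V) ∧ a ≠ 0 ∧ b ≠ 0 ∧
    Linked V (n + c) c (C a * (chow x * chow w)) (C b * (chow y * chow w))

end Rational

section Reductions

variable {R : Type} [CommRing R] {r : ℕ} (S : Finset (MvPolynomial (Fin (r + 1)) R))

/-- The vectors of homogeneous coordinates of the points, with coordinates in the field `K`, of the
projective variety given by the forms in `S`, after applying the homomorphism `φ` to the coefficients
of the forms. -/
def Cone {K : Type} [Field K] (φ : R →+* K) : Set (Fin (r + 1) → K) :=
  {v | v ≠ 0 ∧ ∀ P ∈ S, eval v (map φ P) = 0}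

/-- Every effective zero-cycle of degree `n + 1` on the variety given by `S` and `φ` is rationally
equivalent, with complexity at most `c`, to an effective zero-cycle with a point on the hyperplane
`∑ l a x_a = 0`. -/
def Moves (l : Fin (r + 1) → R) {K : Type} [Field K] (φ : R →+* K) (n c : ℕ) : Prop :=
  ∀ x : Fin (n + 1) → Fin (r + 1) → K, (∀ i, x i ∈ Cone S φ) →
    ∃ y : Fin (n + 1) → Fin (r + 1) → K, (∀ i, y i ∈ Cone S φ) ∧ ∑ a, φ (l a) * y 0 a = 0 ∧
      RatEq (Cone S φ) c x y

end Reductions

end Pool.Agent.H837.UF
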