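import Pool.Agent.H837.UF.Main

/-!
# Finite-dimensionality of zero-cycles and uniformly bounded rational equivalences over finite fields:
# the equivalences
-/

set_option autoImplicit false

namespace Pool.Agent.H837.UF

open MvPolynomial Pool.Agent.Y148.OD
open Filter hiding map

variable {R : Type} [CommRing R]

/-- A sequence of nonzero elements of a countable subring of the complex numbers such that all nonzero
elements divide almost all members of the sequence. -/
theorem exists_sequence [Countable R] {ι : R →+* ℂ} (hι : Function.Injective ι) :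
    ∃ g : ℕ → R, (∀ j, g j ≠ 0) ∧ ∀ x : R, x ≠ 0 → ∀ᶠ j in atTop, x ∣ g j := by
  classical
  obtain ⟨e, he⟩ := exists_surjective_nat R
  let e' : ℕ → R := fun i => if e i = 0 then 1 else e i
  have he' : ∀ i, ι (e' i) ≠ 0 := by
    intro i
    by_cases h : e i = 0
    · simp [e', h]
    · simp only [e', if_neg h]
      intro h0
      exact h (hι (by rw [h0, map_zero]))
  refine ⟨fun j => ∏ i ∈ Finset.range j, e' i, fun j h0 => ?_, fun x hx => ?_⟩
  · have h1 := congrArg ι h0
    rw [map_prod, map_zero, Finset.prod_eq_zero_iff] at h1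
    obtain ⟨i, -, hi⟩ := h1
    exact he' i hi
  · obtain ⟨i, hi⟩ := he x
    filter_upwards [eventually_gt_atTop i] with j hj
    have h1 : e' i = x := by
      simp only [e', hi, if_neg hx]
    rw [← h1]
    exact Finset.dvd_prod_of_mem _ (Finset.mem_range.mpr hj)

theorem eventually_ne_of_dvd {K : ℕ → Type} [∀ j, Field (K j)] {g : ℕ → R}
    (hg : ∀ x : R, x ≠ 0 → ∀ᶠ j in atTop, x ∣ g j) (φ : ∀ j, R →+* K j) (hφ : ∀ j, φ j (g j) ≠ 0)
    (x : R) (hx : x ≠ 0) : ∀ᶠ j in atTop, φ j x ≠ 0 := by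
  filter_upwards [hg x hx] with j hj h0
  obtain ⟨y, hy⟩ := hj
  apply hφ j
  rw [hy, map_mul, h0, zero_mul]

theorem main [Algebra.FiniteType ℤ R] {r : ℕ} (S : Finset (MvPolynomial (Fin (r + 1)) R))
    (hS : ∀ P ∈ S, ∃ d : ℕ, P.IsHomogeneous d) (l : Fin (r + 1) → R) (ι : R →+* ℂ)
    (hι : Function.Injective ι) (hX : IsVariety (Member S ι) 2)
    (hl : ∃ v ∈ Cone S ι, ∑ a, ι (l a) * v a ≠ 0) :
    List.TFAE
      [∃ c : ℕ, ∀ n, dn (Member S ι) 2 n ≤ c,
       ∃ (h : R) (c p₀ : ℕ), h ≠ 0 ∧ ∀ (p : ℕ) [Fact p.Prime], p₀ ≤ p →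
         ∀ φ : R →+* AlgebraicClosure (ZMod p), φ h ≠ 0 → Moves S l φ c c,
       ∃ c : ℕ, ∀ h : R, h ≠ 0 → ∀ p₀ : ℕ, ∃ (p : ℕ) (_ : Fact p.Prime)
         (φ : R →+* AlgebraicClosure (ZMod p)), p₀ ≤ p ∧ φ h ≠ 0 ∧ Moves S l φ c c] := by
  classical
  have hRc : Countable R := countable_of_finiteType
  obtain ⟨g, hg0, hg⟩ := exists_sequence hι
  tfae_have 1 → 2 := by
    intro h
    by_contra hcon
    push Not at hcon
    choose p hpf hp φ hφ hmv using fun j : ℕ => hcon (g j) j j (hg0 j)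
    obtain ⟨π, hπ, rfl⟩ := exists_ultra hι p φ (eventually_ne_of_dvd hg φ hφ)
    obtain ⟨n, hn⟩ := (finite_iff hS hX hl).mp h
    have hlim := cone_lim hπ S (RingHom.pi φ)
    have hx : ∀ᶠ j in (hyperfilter ℕ : Filter ℕ), ∃ x : Fin (n + 1) → Fin (r + 1) →
        AlgebraicClosure (ZMod (p j)), (∀ i, x i ∈ Cone S (φ j)) ∧
          ∀ y : Fin (n + 1) → Fin (r + 1) → AlgebraicClosure (ZMod (p j)),
            (∀ i, y i ∈ Cone S (φ j)) → ∑ a, φ j (l a) * y 0 a = 0 →
              ¬ RatEq (Cone S (φ j)) j x y := by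
      refine Nat.hyperfilter_le_atTop ?_
      filter_upwards [eventually_ge_atTop n] with j hj
      have h1 : ¬ Moves S l (φ j) n j := fun h2 => hmv j (h2.mono hj le_rfl)
      rw [Moves] at h1
      push Not at h1
      exact h1
    obtain ⟨x, hx⟩ := eventually_choose hx
    obtain ⟨y, hy, hy0, c, hc⟩ := hn (fun i a => π fun j => x j i a) fun i =>
      (hlim fun a j => x j i a).mpr (by
        filter_upwards [hx] with j hj
        exact hj.1 i)
    choose y' hy' using fun i a => hπ.surj (y i a)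
    obtain rfl : (fun i a => π (y' i a)) = y := funext fun i => funext fun a => hy' i a
    have h1 := (ratEq_iff hπ hlim c (fun i a j => x j i a) y').mp hc
    have h2 : ∀ᶠ j in (hyperfilter ℕ : Filter ℕ), ∀ i, (fun a => y' i a j) ∈ Cone S (φ j) := by
      rw [eventually_all]
      intro i
      exact (hlim (y' i)).mp (hy i)
    have h3 := (plane_iff hπ l (RingHom.pi φ) (y' 0)).mp hy0
    have h4 : ∀ᶠ j in (hyperfilter ℕ : Filter ℕ), c ≤ j :=
      Nat.hyperfilter_le_atTop (eventually_ge_atTop c)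
    obtain ⟨j, ⟨⟨⟨hj0, hj1⟩, hj2⟩, hj3⟩, hj4⟩ := ((((hx.and h1).and h2).and h3).and h4).exists
    exact hj0.2 _ hj2 hj3 (RatEq.mono hj1 ⟨_, hj2 0⟩ hj4)
  tfae_have 2 → 3 := by
    rintro ⟨h, c, p₀, h0, hmv⟩
    refine ⟨c, fun h' h0' q₀ => ?_⟩
    have hne : ∀ x : R, x ≠ 0 → ι x ≠ 0 := fun x hx hx0 => hx (hι (by rw [hx0, map_zero]))
    obtain ⟨p₁, hp₁⟩ := exists_reduction (ι := ι) (h := h * h') (by
      rw [map_mul]
      exact mul_ne_zero (hne h h0) (hne h' h0'))
    obtain ⟨p, hp, hpp⟩ := Nat.exists_infinite_primes (max p₁ (max p₀ q₀))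
    have hf : Fact p.Prime := ⟨hpp⟩
    obtain ⟨φ, hφ⟩ := hp₁ p ((le_max_left _ _).trans hp)
    rw [map_mul] at hφ
    refine ⟨p, hf, φ, ?_, right_ne_zero_of_mul hφ, hmv p ?_ φ (left_ne_zero_of_mul hφ)⟩
    · exact (le_max_right _ _).trans ((le_max_right _ _).trans hp)
    · exact (le_max_left _ _).trans ((le_max_right _ _).trans hp)
  tfae_have 3 → 1 := by
    rintro ⟨c, h⟩
    choose p hpf φ hp hφ hmv using fun j : ℕ => h (g j) (hg0 j) j
    obtain ⟨π, hπ, rfl⟩ := exists_ultra hι p φ (eventually_ne_of_dvd hg φ hφ)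
    have hlim := cone_lim hπ S (RingHom.pi φ)
    refine (finite_iff hS hX hl).mpr ⟨c, fun z hz => ?_⟩
    choose x' hx' using fun i a => hπ.surj (z i a)
    obtain rfl : (fun i a => π (x' i a)) = z := funext fun i => funext fun a => hx' i a
    have h2 : ∀ᶠ j in (hyperfilter ℕ : Filter ℕ), ∀ i, (fun a => x' i a j) ∈ Cone S (φ j) := by
      rw [eventually_all]
      intro i
      exact (hlim (x' i)).mp (hz i)
    have h3 : ∀ᶠ j in (hyperfilter ℕ : Filter ℕ), ∃ y : Fin (c + 1) → Fin (r + 1) →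
        AlgebraicClosure (ZMod (p j)), (∀ i, y i ∈ Cone S (φ j)) ∧
          ∑ a, φ j (l a) * y 0 a = 0 ∧ RatEq (Cone S (φ j)) c (fun i a => x' i a j) y := by
      filter_upwards [h2] with j hj2
      exact hmv j _ hj2
    obtain ⟨y, hy⟩ := eventually_choose h3
    refine ⟨fun i a => π fun j => y j i a, fun i => ?_, ?_, c, ?_⟩
    · refine (hlim fun a j => y j i a).mpr ?_
      filter_upwards [hy] with j hj
      exact hj.1 i
    · refine (plane_iff hπ l (RingHom.pi φ) fun a j => y j 0 a).mpr ?_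
      filter_upwards [hy] with j hj
      exact hj.2.1
    · refine (ratEq_iff hπ hlim c x' fun i a j => y j i a).mpr ?_
      filter_upwards [hy] with j hj
      exact hj.2.2
  tfae_finish

end Pool.Agent.H837.UF
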