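import Pool.Graph.R_pool_sql_team_seeded_1acbe0a2.Y148.OD.Facts
import Pool.Graph.R_pool_sql_team_seeded_1acbe0a2.Y148.OD.TransN

/-!
# Surfaces: zero-cycles with a point on a hyperplane section
-/

set_option autoImplicit false

namespace Pool.Agent.H837.UF

open MvPolynomial Pool.Agent.Y148.OD

variable {r : ℕ} {X : Set (Pt r)}

theorem key_big (hX : X.Nonempty) (n s : ℕ) :
    s ≤ sInf {d | ∃ x : Fin n → X, d = dim (fibre X x)} ↔
      ∀ z : Fin n → Fin (r + 1) → ℂ, (∀ i, z i ∈ cone X) → Big (cone X) (cl X) z (s + n) := by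
  have hz : ∀ {n : ℕ} (z : Fin n → Fin (r + 1) → ℂ) (hz : ∀ i, z i ∈ cone X),
      ∑ i, cl X (z i) = γ X fun i => Pool.Agent.Y148.OD.pt ⟨z i, hz i⟩ := fun z hz =>
    (γ_pt fun i => ⟨z i, hz i⟩).symm
  have hx : ∀ {n : ℕ} (x : Fin n → X), ∑ i, cl X (vec (x i)) = γ X x := by
    intro n x
    rw [← γ_pt]
    simp only [pt_vec]
  rw [le_sInf_iff hX]
  constructor
  · intro h z hzc
    exact (big_iff (hz z hzc) s).mpr (h _)
  · intro h x
    exact (big_iff (hx x) s).mp (h _ fun i => (vec (x i)).2)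

/-- The zero-cycles on `V` are bounded if zero-cycles of degree `p + 1` can be moved to have a point on
the section `l = 0` and the zero-cycles on this section are bounded. -/
theorem bdd_of_moves {Ω : Type} [Field Ω] {τ A : Type} [AddCommGroup A] [IsAlgClosed Ω]
    [Uncountable Ω] [Fintype τ] {k : Subfield Ω} {V : Set (τ → Ω)} {cl : (τ → Ω) → A} {m : ℕ}
    (hD : Setup k V m) {p : ℕ} {l : τ → Ω}
    (hmv : ∀ a ∈ Eff V cl (p + 1), ∃ v ∈ Sec V l, ∃ b ∈ Eff V cl p, a = cl v + b) {q : ℕ}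
    (hB : Bdd k V (Sec V l) cl q) : Bdd k V V cl (q + m * p) := by
  classical
  have hsec := eff_section hmv
  intro ι _ b hb
  by_cases hn : Fintype.card ι < p
  · refine ⟨b, fun i => hb i, rfl, ?_⟩
    refine (rk_coords_le hD hb).trans ?_
    have := Nat.mul_le_mul_left m hn.le
    exact_mod_cast this.trans (Nat.le_add_left _ _)
  · obtain ⟨s, hs⟩ : ∃ s, Fintype.card ι = s + p := ⟨Fintype.card ι - p, by omega⟩
    have h1 : ∑ i, cl (b i) ∈ Eff V cl (s + p) := by
      rw [← hs]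
      exact eff_sum hb
    obtain ⟨b₁, ⟨x, hx, rfl⟩, b₂, ⟨w, hw, rfl⟩, hsum⟩ := hsec s _ h1
    obtain ⟨x', hx', hxs', hxr'⟩ := hB (Fin s) x hx
    let e : ι ≃ Fin s ⊕ Fin p := (Fintype.equivFinOfCardEq hs).trans finSumFinEquiv.symm
    have hut : ∀ i, Sum.elim x' w i ∈ V := by
      rintro (i | i)
      · exact hx' i
      · exact hw i
    refine ⟨fun i => Sum.elim x' w (e i), fun i => hut _, ?_, ?_⟩
    · rw [Equiv.sum_comp e (fun i => cl (Sum.elim x' w i)), Fintype.sum_sum_type, hsum]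
      simp only [Sum.elim_inl, Sum.elim_inr]
      rw [hxs']
    · rw [coords_comp_equiv, coords_sum_elim]
      refine (rk_union_le _ _ _).trans ?_
      have h2 := rk_coords_le hD hw
      rw [Fintype.card_fin] at h2
      exact_mod_cast add_le_add hxr' h2

/-- **Finite-dimensionality and zero-cycles with a point on a hyperplane section.** -/
theorem geo (hX : IsVariety X 2) {l : Fin (r + 1) → ℂ} (hl : ∃ v ∈ cone X, ∑ a, l a * v a ≠ 0) :
    (∃ c, ∀ n, dn X 2 n ≤ c) ↔
      ∃ p : ℕ, ∀ z : Fin (p + 1) → Fin (r + 1) → ℂ, (∀ i, z i ∈ cone X) →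
        ∃ y : Fin (p + 1) → Fin (r + 1) → ℂ, (∀ i, y i ∈ cone X) ∧ ∑ a, l a * y 0 a = 0 ∧
          ∑ i, cl X (z i) = ∑ i, cl X (y i) := by
  classical
  have := uncountable_complex
  obtain ⟨k₀, hk₀⟩ := setup_cone hX
  have hk₀c := hk₀.countable
  set k := adj k₀ (Set.range l) with hk
  have hkc : Countable k := countable_adj (Set.countable_range l)
  have hlk : ∀ a, l a ∈ k := fun a => subset_adj _ _ ⟨a, rfl⟩
  have hS : Setup k (cone X) 3 := hk₀.mono (le_adj_left _ _) hkc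
  have hc : Cls k (cone X) (cl X) := cls_cone stmStab hS
  have htf := surface_tfae stmComp stmCurve stmStab hX
  constructor
  · intro h
    obtain ⟨n, hn⟩ := (htf.out 0 1).mp h
    have h1 : 1 ≤ sInf {d | ∃ x : Fin n → X, d = dim (fibre X x)} := by
      rw [dn] at hn
      omega
    have h2 := (key_big hX.irred.1 n 1).mp h1
    obtain ⟨p, hp⟩ := genMove_of_all (n := n) hS fun z hz => by
      exact (h2 z hz).mono (by omega)
    refine ⟨p, fun z hz => ?_⟩
    obtain ⟨v, hv, b, ⟨y, hy, hyb⟩, hsum⟩ := eff_move hS hc hp l hlk _ ⟨z, hz, rfl⟩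
    refine ⟨Fin.cons v y, fun i => ?_, ?_, ?_⟩
    · refine Fin.cases ?_ (fun i => ?_) i
      · exact hv.1
      · exact hy i
    · exact hv.2
    · rw [hsum, hyb, Fin.sum_univ_succ]
      rfl
  · rintro ⟨p, hp⟩
    have hmv : ∀ a ∈ Eff (cone X) (cl X) (p + 1), ∃ v ∈ Sec (cone X) l,
        ∃ b ∈ Eff (cone X) (cl X) p, a = cl X v + b := by
      rintro a ⟨z, hz, rfl⟩
      obtain ⟨y, hy, hy0, hs⟩ := hp z hz
      refine ⟨y 0, ⟨hy 0, hy0⟩, ∑ i : Fin p, cl X (y i.succ), ⟨fun i => y i.succ,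
        fun i => hy _, rfl⟩, ?_⟩
      rw [hs, Fin.sum_univ_succ]
    obtain ⟨k', q, hk'c, hkk', hB⟩ := exists_bdd stmComp stmCurve hS hc
      (fun n x y h => cl_eq_of_rat x y h) hlk hl
    have hS' := hS.mono hkk' hk'c
    have hc' := hc.mono hkk'
    have hB' := bdd_of_moves hS' hmv hB
    refine ⟨3 * (q + 3 * p), fun n => ?_⟩
    have h1 := (key_big hX.irred.1 n (2 * n - 3 * (q + 3 * p))).mpr (fun z hz => by
      have h2 := big_of_bdd hS' (by norm_num) hc' hB' n hz
      by_cases h0 : 2 * n ≤ 3 * (q + 3 * p)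
      · rw [Nat.sub_eq_zero_of_le h0]
        have h3 := (key_big hX.irred.1 n 0).mp (Nat.zero_le _) z hz
        exact h3
      · exact h2.mono (by omega))
    rw [dn]
    omega

end Pool.Agent.H837.UF
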