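import Pool.Agent.H837.UF.Defs

/-!
# Ultraproducts and rational equivalences of bounded complexity
-/

set_option autoImplicit false

namespace Pool.Agent.H837.UF

open MvPolynomial Filter

variable {J : Type} {U : Ultrafilter J} {K : J → Type} [∀ j, Field (K j)] {L : Type} [Field L]

/-- `π` is the map from the product of the fields `K j` to the ultraproduct `L`. -/
structure IsUltra (U : Ultrafilter J) (π : (∀ j, K j) →+* L) : Prop where
  surj : Function.Surjective π
  ker : ∀ a, π a = 0 ↔ ∀ᶠ j in U, a j = 0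

theorem eventually_choose {A : J → Type} [∀ j, Nonempty (A j)] {P : ∀ j, A j → Prop}
    (h : ∀ᶠ j in U, ∃ a, P j a) : ∃ a : ∀ j, A j, ∀ᶠ j in U, P j (a j) := by
  classical
  refine ⟨fun j => if hj : ∃ a, P j a then hj.choose else Classical.arbitrary _, ?_⟩
  filter_upwards [h] with j hj
  rw [dif_pos hj]
  exact hj.choose_spec

variable {π : (∀ j, K j) →+* L} (hπ : IsUltra U π)

include hπ

theorem IsUltra.eq_iff (a b : ∀ j, K j) : π a = π b ↔ ∀ᶠ j in U, a j = b j := by
  rw [← sub_eq_zero, ← map_sub, hπ.ker]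
  refine eventually_congr (Eventually.of_forall fun j => ?_)
  rw [Pi.sub_apply, sub_eq_zero]

theorem IsUltra.ne_iff (a : ∀ j, K j) : π a ≠ 0 ↔ ∀ᶠ j in U, a j ≠ 0 := by
  rw [Ne, hπ.ker, ← Ultrafilter.eventually_not]

theorem IsUltra.mv_zero {σ : Type} (P : MvPolynomial σ (∀ j, K j)) :
    map π P = 0 ↔ ∀ᶠ j in U, map (Pi.evalRingHom K j) P = 0 := by
  classical
  constructor
  · intro h
    have h1 : ∀ μ ∈ P.support, ∀ᶠ j in U, coeff μ P j = 0 := by
      intro μ _
      rw [← hπ.ker, ← coeff_map, h, coeff_zero]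
    have h2 : ∀ᶠ j in U, ∀ μ ∈ P.support, coeff μ P j = 0 :=
      (Finset.eventually_all P.support).mpr h1
    filter_upwards [h2] with j hj
    ext μ
    rw [coeff_map, coeff_zero]
    by_cases hμ : μ ∈ P.support
    · exact hj μ hμ
    · rw [notMem_support_iff.mp hμ]
      exact map_zero _
  · intro h
    ext μ
    rw [coeff_map, coeff_zero, hπ.ker]
    filter_upwards [h] with j hj
    have h1 := congrArg (coeff μ) hj
    rw [coeff_map, coeff_zero] at h1
    exact h1

theorem IsUltra.mv_eq {σ : Type} (P Q : MvPolynomial σ (∀ j, K j)) :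
    map π P = map π Q ↔ ∀ᶠ j in U, map (Pi.evalRingHom K j) P = map (Pi.evalRingHom K j) Q := by
  rw [← sub_eq_zero, ← map_sub, hπ.mv_zero]
  refine eventually_congr (Eventually.of_forall fun j => ?_)
  rw [map_sub, sub_eq_zero]

/-- Lifting forms. -/
theorem IsUltra.exists_lift {σ : Type} {N : ℕ} {P : MvPolynomial σ L} (hP : P.IsHomogeneous N) :
    ∃ Q : MvPolynomial σ (∀ j, K j), Q.IsHomogeneous N ∧ map π Q = P := by
  classical
  choose s hs using hπ.surj
  refine ⟨∑ μ ∈ P.support, monomial μ (s (coeff μ P)), ?_, ?_⟩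
  · refine IsHomogeneous.sum _ _ _ fun μ hμ => ?_
    refine isHomogeneous_monomial _ ?_
    rw [← hP (mem_support_iff.mp hμ)]
    exact DFunLike.congr_fun Finsupp.degree_eq_weight_one μ
  · rw [map_sum]
    conv_rhs => rw [P.as_sum]
    refine Finset.sum_congr rfl fun μ _ => ?_
    rw [map_monomial, hs]

omit hπ in
/-- Glueing forms. -/
theorem exists_glue {σ : Type} [Fintype σ] [DecidableEq σ] {N : ℕ} (P : ∀ j, MvPolynomial σ (K j)) :
    ∃ Q : MvPolynomial σ (∀ j, K j), Q.IsHomogeneous N ∧
      ∀ j, (P j).IsHomogeneous N → map (Pi.evalRingHom K j) Q = P j := by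
  classical
  refine ⟨∑ μ ∈ Finset.finsuppAntidiag Finset.univ N, monomial μ (fun j => coeff μ (P j)), ?_,
    fun j hj => ?_⟩
  · refine IsHomogeneous.sum _ _ _ fun μ hμ => ?_
    refine isHomogeneous_monomial _ ?_
    rw [Finset.mem_finsuppAntidiag] at hμ
    rw [Finsupp.degree_eq_sum]
    exact hμ.1
  · rw [map_sum]
    ext μ
    rw [coeff_sum]
    simp only [map_monomial, coeff_monomial]
    rw [Finset.sum_ite_eq']
    by_cases hμ : μ ∈ Finset.finsuppAntidiag Finset.univ N
    · rw [if_pos hμ]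
      rfl
    · rw [if_neg hμ]
      by_contra hcon
      apply hμ
      rw [Finset.mem_finsuppAntidiag]
      refine ⟨?_, Finset.subset_univ _⟩
      have h1 := hj (Ne.symm hcon)
      rw [← h1, ← Finsupp.degree_eq_sum]
      exact (DFunLike.congr_fun Finsupp.degree_eq_weight_one μ)

end Pool.Agent.H837.UF
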