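import Pool.Agent.H837.UF.Mono
import Pool.Graph.R_pool_sql_team_seeded_1acbe0a2.Y148.OD.Facts
import Pool.Graph.R_pool_sql_team_seeded_1acbe0a2.Y148.OD.TransN

/-!
# Rational equivalence over the complex numbers and rational equivalence of bounded complexity
-/

set_option autoImplicit false

namespace Pool.Agent.H837.UF

open MvPolynomial

/-- The coefficients of a family of forms of degree `N` over an infinite field are forms of degree
`N`. -/
theorem coeff_isHomogeneous {K : Type} [Field K] [Infinite K] {τ : Type} [Fintype τ] {N d : ℕ}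
    {G : Fin (d + 1) → MvPolynomial τ K}
    (h : ∀ s : K, ∃ (a : K) (z : Fin N → τ → K), ∑ i : Fin (d + 1), C (s ^ (i : ℕ)) * G i =
      C a * chow z) (i : Fin (d + 1)) : (G i).IsHomogeneous N := by
  intro μ hμ
  by_contra hcon
  have hdeg : μ.degree ≠ N := by
    intro h1
    apply hcon
    rw [← h1]
    exact (DFunLike.congr_fun Finsupp.degree_eq_weight_one μ).symm
  set q : Polynomial K := ∑ i : Fin (d + 1), Polynomial.C (coeff μ (G i)) * Polynomial.X ^ (i : ℕ)
    with hq
  have h0 : q = 0 := by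
    apply Polynomial.funext
    intro s
    obtain ⟨a, z, haz⟩ := h s
    have h1 := congrArg (coeff μ) haz
    have h2 : (C a * chow z).IsHomogeneous N := by
      have := (isHomogeneous_C τ a).mul (chow_isHomogeneous z)
      rwa [zero_add] at this
    rw [h2.coeff_eq_zero hdeg, coeff_sum] at h1
    rw [hq, Polynomial.eval_finsetSum, Polynomial.eval_zero, ← h1]
    refine Finset.sum_congr rfl fun i _ => ?_
    rw [Polynomial.eval_mul, Polynomial.eval_C, Polynomial.eval_pow, Polynomial.eval_X, coeff_C_mul]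
    ring
  have h1 := congrArg (fun p => Polynomial.coeff p (i : ℕ)) h0
  simp only [hq, Polynomial.finsetSum_coeff, Polynomial.coeff_C_mul, Polynomial.coeff_X_pow,
    Polynomial.coeff_zero, mul_ite, mul_one, mul_zero] at h1
  rw [Finset.sum_eq_single i] at h1
  · rw [if_pos rfl] at h1
    exact hμ h1
  · intro j _ hj
    rw [if_neg]
    intro h2
    exact hj (Fin.ext h2.symm)
  · intro h2
    exact absurd (Finset.mem_univ _) h2

open Pool.Agent.Y148.OD in
theorem chow_append {τ : Type} [Fintype τ] {V : Set (τ → ℂ)} {n m : ℕ} (x : Fin n → V)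
    (w : Fin m → V) : Pool.Agent.Y148.OD.chow (vlin V) (Fin.append x w) =
      UF.chow (fun i => (x i : τ → ℂ)) * UF.chow (fun i => (w i : τ → ℂ)) := by
  rw [Pool.Agent.Y148.OD.chow, Fin.prod_univ_add]
  simp only [Fin.append_left, Fin.append_right]
  rfl

theorem chow_ne_zero {τ : Type} [Fintype τ] {n : ℕ} {x : Fin n → τ → ℂ} (h : ∀ i, x i ≠ 0) :
    chow x ≠ 0 :=
  Finset.prod_ne_zero_iff.mpr fun i _ => Pool.Agent.Y737.OD.lin_ne_zero (x i) (h i)

open Pool.Agent.Y148.OD in
theorem rat_iff {τ : Type} [Fintype τ] {V : Set (τ → ℂ)} (hV : V.Nonempty) (hV0 : ∀ v ∈ V, v ≠ 0)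
    {n : ℕ} (x y : Fin n → V) :
    (∑ i, FreeAbelianGroup.of (x i) - ∑ i, FreeAbelianGroup.of (y i) ∈ ratSub (vlin V)) ↔
      ∃ c, RatEq V c (fun i => (x i : τ → ℂ)) (fun i => (y i : τ → ℂ)) := by
  classical
  rw [Pool.Agent.Y914.OD.stmRat ℂ τ V (vlin V)
    (fun p => Pool.Agent.Y737.OD.lin_ne_zero _ (hV0 _ p.2)) n x y]
  constructor
  · rintro ⟨m, w, a, b, ha, hb, F, hF0, hFl, hF⟩
    have h1 : RatEq2 V m F.natDegree (fun i => (x i : τ → ℂ)) (fun i => (y i : τ → ℂ)) := by
      have hs : ∀ s : ℂ, ∃ (a : ℂ) (z : Fin (n + m) → τ → ℂ), (∀ i, z i ∈ V) ∧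
          ∑ i : Fin (F.natDegree + 1), C (s ^ (i : ℕ)) * F.coeff i = C a * UF.chow z := by
        intro s
        obtain ⟨a, z, hz⟩ := hF s
        refine ⟨a, fun i => (z i : τ → ℂ), fun i => (z i).2, ?_⟩
        have h2 : UF.chow (fun i => (z i : τ → ℂ)) = Pool.Agent.Y148.OD.chow (vlin V) z := rfl
        rw [h2, ← hz, Polynomial.eval_eq_sum_range, Finset.sum_range]
        refine Finset.sum_congr rfl fun i _ => ?_
        rw [C_pow, mul_comm]
      refine ⟨fun i => (w i : τ → ℂ), a, b, fun i => (w i).2, ha, hb,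
        fun i => F.coeff i, fun i => ?_, ?_, ?_, hs⟩
      · exact coeff_isHomogeneous (G := fun i : Fin (F.natDegree + 1) => F.coeff i) (fun s => by
          obtain ⟨a, z, -, h⟩ := hs s
          exact ⟨a, z, h⟩) i
      · show F.coeff ((0 : Fin (F.natDegree + 1)) : ℕ) = _
        rw [Fin.val_zero, hF0, chow_append]
      · show F.coeff ((Fin.last F.natDegree : Fin (F.natDegree + 1)) : ℕ) = _
        rw [Fin.val_last, Polynomial.coeff_natDegree, hFl, chow_append]
    exact ⟨max m F.natDegree, h1.mono hV (le_max_left _ _) (le_max_right _ _)⟩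
  · rintro ⟨c, w, a, b, hw, ha, hb, G, hGh, hG0, hGl, hG⟩
    set F : Polynomial (MvPolynomial τ ℂ) :=
      ∑ i : Fin (c + 1), Polynomial.C (G i) * Polynomial.X ^ (i : ℕ) with hFdef
    have hcoeff : ∀ i : Fin (c + 1), F.coeff i = G i := by
      intro i
      simp only [hFdef, Polynomial.finsetSum_coeff, Polynomial.coeff_C_mul,
        Polynomial.coeff_X_pow, mul_ite, mul_one, mul_zero]
      rw [Finset.sum_eq_single i]
      · rw [if_pos rfl]
      · intro j _ hj
        rw [if_neg]
        intro h2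
        exact hj (Fin.ext h2.symm)
      · intro h2
        exact absurd (Finset.mem_univ _) h2
    have hcoeff' : ∀ k : ℕ, c < k → F.coeff k = 0 := by
      intro k hk
      simp only [hFdef, Polynomial.finsetSum_coeff, Polynomial.coeff_C_mul,
        Polynomial.coeff_X_pow, mul_ite, mul_one, mul_zero]
      refine Finset.sum_eq_zero fun j _ => ?_
      rw [if_neg]
      have := j.2
      omega
    have hlast : F.coeff c = C b * (UF.chow (fun i => (y i : τ → ℂ)) * UF.chow w) := by
      have := hcoeff (Fin.last c)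
      rw [Fin.val_last] at this
      rw [this, hGl]
    have hne : F.coeff c ≠ 0 := by
      rw [hlast]
      refine mul_ne_zero ?_ (mul_ne_zero (chow_ne_zero fun i => hV0 _ (y i).2)
        (chow_ne_zero fun i => hV0 _ (hw i)))
      rw [Ne, ← C_0, C_inj]
      exact hb
    have hdeg : F.natDegree = c := by
      refine le_antisymm ?_ (Polynomial.le_natDegree_of_ne_zero hne)
      rw [Polynomial.natDegree_le_iff_coeff_eq_zero]
      exact hcoeff'
    refine ⟨c, fun i => ⟨w i, hw i⟩, a, b, ha, hb, F, ?_, ?_, fun s => ?_⟩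
    · have := hcoeff 0
      rw [Fin.val_zero] at this
      rw [this, hG0, chow_append]
    · rw [Polynomial.leadingCoeff, hdeg, hlast, chow_append]
    · obtain ⟨a, z, hz, haz⟩ := hG s
      refine ⟨a, fun i => ⟨z i, hz i⟩, ?_⟩
      have h2 : Pool.Agent.Y148.OD.chow (vlin V) (fun i => (⟨z i, hz i⟩ : V)) = UF.chow z := rfl
      rw [h2, ← haz, hFdef, Polynomial.eval_finsetSum]
      refine Finset.sum_congr rfl fun i _ => ?_
      rw [Polynomial.eval_mul, Polynomial.eval_C, Polynomial.eval_pow, Polynomial.eval_X, C_pow,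
        mul_comm]

open Pool.Agent.Y148.OD in
/-- Two effective zero-cycles on `X` have the same class in `B(X)` if and only if they are rationally
equivalent with some complexity. -/
theorem cl_iff {r : ℕ} {X : Set (Pt r)} (hX : X.Nonempty) {n : ℕ} {x y : Fin n → Fin (r + 1) → ℂ}
    (hx : ∀ i, x i ∈ cone X) (hy : ∀ i, y i ∈ cone X) :
    ∑ i, cl X (x i) = ∑ i, cl X (y i) ↔ ∃ c, RatEq (cone X) c x y := by
  obtain ⟨p, hp⟩ := hX
  have h1 := rat_iff (V := cone X) ⟨_, rep_mem_cone hp⟩ (fun v hv => hv.choose)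
    (fun i => ⟨x i, hx i⟩) (fun i => ⟨y i, hy i⟩)
  rw [← h1]
  exact ⟨fun h => rat_of_cl_eq _ _ h, fun h => cl_eq_of_rat _ _ h⟩

end Pool.Agent.H837.UF
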