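import Pool.Agent.H837.UF.Prod
import Pool.Agent.H837.UF.Los2
import Pool.Agent.H837.UF.Geo
import Pool.Agent.H837.UF.Rel

/-!
# Finite-dimensionality of zero-cycles and uniformly bounded rational equivalences over finite fields
-/

set_option autoImplicit false

namespace Pool.Agent.H837.UF

open MvPolynomial Pool.Agent.Y148.OD
open Filter hiding map

section Complex

variable {R : Type} [CommRing R] {r : ℕ} (S : Finset (MvPolynomial (Fin (r + 1)) R))

/-- The complex projective variety given by the forms in `S` and the homomorphism `ι` from the ring of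
their coefficients to the field of complex numbers. -/
def Member (ι : R →+* ℂ) : Set (Pt r) := {x | x.rep ∈ Cone S ι}

variable {S}

theorem smul_mem_iff (hS : ∀ P ∈ S, ∃ d : ℕ, P.IsHomogeneous d) {ι : R →+* ℂ} {c : ℂ} (hc : c ≠ 0)
    (v : Fin (r + 1) → ℂ) : c • v ∈ Cone S ι ↔ v ∈ Cone S ι := by
  have h1 : ∀ P ∈ S, (eval (c • v) (map ι P) = 0 ↔ eval v (map ι P) = 0) := by
    intro P hP
    obtain ⟨d, hd⟩ := hS P hP
    rw [eval_smul_hom (hd.map _)]
    simp [hc]
  refine and_congr ?_ (forall₂_congr h1)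
  rw [Ne, smul_eq_zero, not_or]
  exact ⟨fun h => h.2, fun h => ⟨hc, h⟩⟩

theorem cone_member (hS : ∀ P ∈ S, ∃ d : ℕ, P.IsHomogeneous d) (ι : R →+* ℂ) :
    cone (Member S ι) = Cone S ι := by
  ext v
  constructor
  · rintro ⟨hv, h⟩
    obtain ⟨c, hc, hcv⟩ := exists_rep v hv
    have h1 : (Projectivization.mk ℂ v hv).rep ∈ Cone S ι := h
    rw [hcv] at h1
    exact (smul_mem_iff hS hc v).mp h1
  · intro h
    refine ⟨h.1, ?_⟩
    obtain ⟨c, hc, hcv⟩ := exists_rep v h.1
    show (Projectivization.mk ℂ v h.1).rep ∈ Cone S ι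
    rw [hcv]
    exact (smul_mem_iff hS hc v).mpr h

/-- The criterion over the complex numbers. -/
theorem finite_iff (hS : ∀ P ∈ S, ∃ d : ℕ, P.IsHomogeneous d) {ι : R →+* ℂ} {l : Fin (r + 1) → R}
    (hX : IsVariety (Member S ι) 2) (hl : ∃ v ∈ Cone S ι, ∑ a, ι (l a) * v a ≠ 0) :
    (∃ c, ∀ n, dn (Member S ι) 2 n ≤ c) ↔
      ∃ p : ℕ, ∀ z : Fin (p + 1) → Fin (r + 1) → ℂ, (∀ i, z i ∈ Cone S ι) →
        ∃ y : Fin (p + 1) → Fin (r + 1) → ℂ, (∀ i, y i ∈ Cone S ι) ∧
          ∑ a, ι (l a) * y 0 a = 0 ∧ ∃ c, RatEq (Cone S ι) c z y := by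
  rw [geo hX (l := fun a => ι (l a)) (by
    rw [cone_member hS ι]
    exact hl)]
  refine exists_congr fun p => forall_congr' fun z => ?_
  rw [cone_member hS ι]
  refine forall_congr' fun hz => exists_congr fun y => ?_
  refine and_congr_right fun hy => and_congr_right fun _ => ?_
  have h1 := cl_iff (X := Member S ι) hX.irred.1 (x := z) (y := y)
    (by rw [cone_member hS ι]; exact hz) (by rw [cone_member hS ι]; exact hy)
  rw [cone_member hS ι] at h1
  exact h1

end Complex

instance countable_closure (p : ℕ) [Fact p.Prime] : Countable (AlgebraicClosure (ZMod p)) := by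
  have := Algebra.IsAlgebraic.cardinalMk_le_max (ZMod p) (AlgebraicClosure (ZMod p))
  rw [← Cardinal.mk_le_aleph0_iff]
  refine this.trans ?_
  simp

variable {R : Type} [CommRing R]

/-- An ultraproduct over `R` of the algebraic closures of the prime fields. -/
theorem exists_ultra [Countable R] {ι : R →+* ℂ} (hι : Function.Injective ι) (p : ℕ → ℕ)
    [∀ j, Fact (p j).Prime] (φ : ∀ j, R →+* AlgebraicClosure (ZMod (p j)))
    (hφ : ∀ x, x ≠ 0 → ∀ᶠ j in atTop, φ j x ≠ 0) :
    ∃ π : (∀ j, AlgebraicClosure (ZMod (p j))) →+* ℂ,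
      IsUltra (hyperfilter ℕ) π ∧ π.comp (RingHom.pi φ) = ι := by
  obtain ⟨π, h1, h2, h3⟩ := exists_hom_over (K := fun j => AlgebraicClosure (ZMod (p j))) ι hι
    (RingHom.pi φ) hφ
  exact ⟨π, ⟨h1, h2⟩, h3⟩

theorem cast_ne (p : ℕ → ℕ) [∀ j, Fact (p j).Prime] (hp : ∀ j, j ≤ p j) (n : ℕ) (hn : n ≠ 0) :
    ∀ᶠ j in atTop, (n : AlgebraicClosure (ZMod (p j))) ≠ 0 := by
  filter_upwards [eventually_gt_atTop n] with j hj h0
  rw [CharP.cast_eq_zero_iff (AlgebraicClosure (ZMod (p j))) (p j)] at h0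
  have h3 := Nat.le_of_dvd (Nat.pos_of_ne_zero hn) h0
  have h4 := hp j
  omega

theorem countable_of_finiteType [Algebra.FiniteType ℤ R] : Countable R := by
  obtain ⟨n, f, hf⟩ := Algebra.FiniteType.iff_quotient_mvPolynomial''.mp
    (inferInstance : Algebra.FiniteType ℤ R)
  have : Countable (MvPolynomial (Fin n) ℤ) := by
    rw [← Cardinal.mk_le_aleph0_iff]
    refine MvPolynomial.cardinalMk_le_max.trans ?_
    simp
  exact hf.countable

/-- A finitely generated subring of the complex numbers has homomorphisms to the algebraic closures of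
almost all prime fields which do not map a given nonzero element to zero. -/
theorem exists_reduction [Algebra.FiniteType ℤ R] {ι : R →+* ℂ} {h : R} (hh : ι h ≠ 0) :
    ∃ p₀ : ℕ, ∀ (p : ℕ) [Fact p.Prime], p₀ ≤ p →
      ∃ φ : R →+* AlgebraicClosure (ZMod p), φ h ≠ 0 := by
  classical
  by_contra hcon
  push Not at hcon
  choose p hpf hp hno using hcon
  obtain ⟨π, hπ, -⟩ := exists_ultra (R := ℤ) (ι := Int.castRingHom ℂ) Int.cast_injective p
    (fun j => Int.castRingHom _) (by
      intro x hx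
      have h1 := cast_ne p hp x.natAbs (Int.natAbs_ne_zero.mpr hx)
      filter_upwards [h1] with j hj h0
      apply hj
      have h2 : ((x : ℤ) : AlgebraicClosure (ZMod (p j))) = 0 := h0
      rw [CharP.intCast_eq_zero_iff (AlgebraicClosure (ZMod (p j))) (p j)] at h2
      rw [CharP.cast_eq_zero_iff (AlgebraicClosure (ZMod (p j))) (p j)]
      exact Int.natCast_dvd.mp h2)
  have hfp : Algebra.FinitePresentation ℤ R := Algebra.FinitePresentation.of_finiteType.mp
    inferInstance
  obtain ⟨n, f, hf, s, hs⟩ := hfp.out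
  choose t ht using fun i => hπ.surj (ι (f (X i)))
  have hev : ∀ Q : MvPolynomial (Fin n) ℤ, π (aeval t Q) = ι (f Q) := by
    intro Q
    have h1 : (π.comp (aeval t : MvPolynomial (Fin n) ℤ →ₐ[ℤ] _).toRingHom) =
        ι.comp f.toRingHom := by
      refine MvPolynomial.ringHom_ext (fun a => ?_) (fun i => ?_)
      · simp
      · show π (aeval t (X i)) = ι (f (X i))
        rw [aeval_X, ht]
    exact RingHom.congr_fun h1 Q
  have hj : ∀ (Q : MvPolynomial (Fin n) ℤ) (j : ℕ),
      (aeval t Q : ∀ j, AlgebraicClosure (ZMod (p j))) j = aeval (fun i => t i j) Q := by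
    intro Q j
    have h1 : ((Pi.evalRingHom (fun j => AlgebraicClosure (ZMod (p j))) j).comp
        (aeval t : MvPolynomial (Fin n) ℤ →ₐ[ℤ] _).toRingHom) =
        (aeval (fun i => t i j) : MvPolynomial (Fin n) ℤ →ₐ[ℤ] _).toRingHom := by
      refine MvPolynomial.ringHom_ext (fun a => ?_) (fun i => ?_)
      · simp
      · show (aeval t (X i) : ∀ j, AlgebraicClosure (ZMod (p j))) j = aeval (fun i => t i j) (X i)
        rw [aeval_X, aeval_X]
    exact RingHom.congr_fun h1 Q
  obtain ⟨H, rfl⟩ := hf h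
  have h1 : ∀ᶠ j in (hyperfilter ℕ : Filter ℕ), ∀ P ∈ s, aeval (fun i => t i j) P = 0 := by
    rw [Finset.eventually_all]
    intro P hP
    have h2 : π (aeval t P) = 0 := by
      rw [hev]
      have h3 : P ∈ RingHom.ker f.toRingHom := by
        rw [← hs]
        exact Ideal.subset_span hP
      have h4 : f P = 0 := h3
      rw [h4, map_zero]
    rw [hπ.ker] at h2
    filter_upwards [h2] with j hj2
    rw [← hj]
    exact hj2
  have h2 : ∀ᶠ j in (hyperfilter ℕ : Filter ℕ), aeval (fun i => t i j) H ≠ 0 := by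
    have h3 : π (aeval t H) ≠ 0 := by
      rw [hev]
      exact hh
    rw [hπ.ne_iff] at h3
    filter_upwards [h3] with j hj2
    rw [← hj]
    exact hj2
  obtain ⟨j, hj1, hj2⟩ := (h1.and h2).exists
  have hker : RingHom.ker f.toRingHom ≤
      RingHom.ker (aeval (fun i => t i j) : MvPolynomial (Fin n) ℤ →ₐ[ℤ] _).toRingHom := by
    rw [← hs, Ideal.span_le]
    intro P hP
    exact hj1 P hP
  apply hj2
  let g : MvPolynomial (Fin n) ℤ →+* AlgebraicClosure (ZMod (p j)) :=
    (aeval (fun i => t i j) : MvPolynomial (Fin n) ℤ →ₐ[ℤ] _).toRingHom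
  have h3 := hno j ((f : MvPolynomial (Fin n) ℤ →+* R).liftOfSurjective hf ⟨g, hker⟩)
  have h4 : (f : MvPolynomial (Fin n) ℤ →+* R).liftOfSurjective hf ⟨g, hker⟩ (f H) = g H :=
    RingHom.liftOfRightInverse_comp_apply _ _ _ _ H
  exact h4.symm.trans h3

end Pool.Agent.H837.UF
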