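import Pool.Agent.H837.UF.Defs

/-!
# Monotonicity of the complexity
-/

set_option autoImplicit false

namespace Pool.Agent.H837.UF

open MvPolynomial

variable {K : Type} [Field K] {τ : Type} [Fintype τ] {V : Set (τ → K)}

theorem lin_isHomogeneous {K : Type} [CommRing K] {τ : Type} [Fintype τ] (v : τ → K) :
    (lin v).IsHomogeneous 1 := by
  refine IsHomogeneous.sum _ _ _ fun a _ => ?_
  have := (isHomogeneous_C τ (v a)).mul (isHomogeneous_X K a)
  rwa [zero_add] at this

theorem chow_isHomogeneous {K : Type} [CommRing K] {τ : Type} [Fintype τ] {n : ℕ}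
    (x : Fin n → τ → K) : (chow x).IsHomogeneous n := by
  have := IsHomogeneous.prod (Finset.univ : Finset (Fin n)) (fun i => lin (x i)) (fun _ => 1)
    (fun i _ => lin_isHomogeneous (x i))
  rw [chow]
  simpa using this

theorem chow_cons {K : Type} [CommRing K] {τ : Type} [Fintype τ] {n : ℕ} (v : τ → K)
    (x : Fin n → τ → K) : chow (Fin.cons v x : Fin (n + 1) → τ → K) = lin v * chow x := by
  rw [chow, Fin.prod_univ_succ]
  rfl

theorem chow_snoc {K : Type} [CommRing K] {τ : Type} [Fintype τ] {n : ℕ}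
    (x : Fin (n + 1) → τ → K) : chow x = chow (fun i : Fin n => x i.castSucc) *
      lin (x (Fin.last n)) := by
  rw [chow, Fin.prod_univ_castSucc]
  rfl

/-- The degree of a family can be increased. -/
theorem Linked.succ_degree {N d : ℕ} {f g : MvPolynomial τ K} (h : Linked V N d f g) :
    Linked V N (d + 1) f g := by
  obtain ⟨G, hGh, hG0, hGd, hG⟩ := h
  let A : Fin (d + 1 + 1) → MvPolynomial τ K := Fin.snoc G 0
  let B : Fin (d + 1 + 1) → MvPolynomial τ K := Fin.cons 0 G
  have hA : ∀ i : Fin (d + 1), A i.castSucc = G i := fun i => Fin.snoc_castSucc (α := fun _ => _) _ _ i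
  have hA' : A (Fin.last (d + 1)) = 0 := Fin.snoc_last (α := fun _ => _) _ _
  have hB : ∀ i : Fin (d + 1), B i.succ = G i := fun i => rfl
  have hB' : B 0 = 0 := rfl
  refine ⟨fun i => A i + B i, fun i => ?_, ?_, ?_, fun s => ?_⟩
  · refine IsHomogeneous.add ?_ ?_
    · refine Fin.lastCases ?_ (fun i => ?_) i
      · rw [hA']
        exact isHomogeneous_zero _ _ _
      · rw [hA]
        exact hGh i
    · refine Fin.cases ?_ (fun i => ?_) i
      · rw [hB']
        exact isHomogeneous_zero _ _ _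
      · rw [hB]
        exact hGh i
  · show A 0 + B 0 = f
    rw [hB', add_zero, ← hG0]
    exact hA 0
  · show A (Fin.last (d + 1)) + B (Fin.last (d + 1)) = g
    rw [hA', zero_add, ← hGd]
    exact hB (Fin.last d)
  · obtain ⟨a, z, hz, haz⟩ := hG s
    refine ⟨(1 + s) * a, z, hz, ?_⟩
    have h1 : ∑ i : Fin (d + 1 + 1), C (s ^ (i : ℕ)) * A i =
        ∑ i : Fin (d + 1), C (s ^ (i : ℕ)) * G i := by
      rw [Fin.sum_univ_castSucc, hA', mul_zero, add_zero]
      refine Finset.sum_congr rfl fun i _ => ?_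
      rw [hA, Fin.val_castSucc]
    have h2 : ∑ i : Fin (d + 1 + 1), C (s ^ (i : ℕ)) * B i =
        C s * ∑ i : Fin (d + 1), C (s ^ (i : ℕ)) * G i := by
      rw [Fin.sum_univ_succ, hB', mul_zero, zero_add, Finset.mul_sum]
      refine Finset.sum_congr rfl fun i _ => ?_
      rw [hB, Fin.val_succ, pow_succ, C_mul]
      ring
    simp only [mul_add]
    rw [Finset.sum_add_distrib, h1, h2, haz, C_mul, C_add, C_1]
    ring

/-- Adding a point. -/
theorem Linked.mul_lin {N d : ℕ} {f g : MvPolynomial τ K} (h : Linked V N d f g) {v : τ → K}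
    (hv : v ∈ V) : Linked V (N + 1) d (lin v * f) (lin v * g) := by
  obtain ⟨G, hGh, hG0, hGd, hG⟩ := h
  refine ⟨fun i => lin v * G i, fun i => ?_, ?_, ?_, fun s => ?_⟩
  · have := (lin_isHomogeneous v).mul (hGh i)
    rwa [add_comm] at this
  · show lin v * G 0 = _
    rw [hG0]
  · show lin v * G (Fin.last d) = _
    rw [hGd]
  · obtain ⟨a, z, hz, haz⟩ := hG s
    refine ⟨a, Fin.cons v z, fun i => ?_, ?_⟩
    · refine Fin.cases ?_ (fun i => ?_) i
      · exact hv
      · exact hz i
    · rw [chow_cons]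
      have h1 : ∑ i : Fin (d + 1), C (s ^ (i : ℕ)) * (lin v * G i) =
          lin v * ∑ i : Fin (d + 1), C (s ^ (i : ℕ)) * G i := by
        rw [Finset.mul_sum]
        exact Finset.sum_congr rfl fun i _ => by ring
      rw [h1, haz]
      ring

/-- Rational equivalence with `m` auxiliary points and a family of degree `d`. -/
def RatEq2 (V : Set (τ → K)) (m d : ℕ) {n : ℕ} (x y : Fin n → τ → K) : Prop :=
  ∃ (w : Fin m → τ → K) (a b : K), (∀ i, w i ∈ V) ∧ a ≠ 0 ∧ b ≠ 0 ∧
    Linked V (n + m) d (C a * (chow x * chow w)) (C b * (chow y * chow w))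

theorem RatEq2.succ_right {m d n : ℕ} {x y : Fin n → τ → K} (h : RatEq2 V m d x y) :
    RatEq2 V m (d + 1) x y := by
  obtain ⟨w, a, b, hw, ha, hb, h⟩ := h
  exact ⟨w, a, b, hw, ha, hb, h.succ_degree⟩

theorem RatEq2.succ_left {m d n : ℕ} {x y : Fin n → τ → K} (h : RatEq2 V m d x y) {v : τ → K}
    (hv : v ∈ V) : RatEq2 V (m + 1) d x y := by
  obtain ⟨w, a, b, hw, ha, hb, h⟩ := h
  refine ⟨Fin.cons v w, a, b, fun i => ?_, ha, hb, ?_⟩
  · refine Fin.cases ?_ (fun i => ?_) i
    · exact hv
    · exact hw i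
  · have h1 := h.mul_lin hv
    rw [chow_cons]
    have e1 : lin v * (C a * (chow x * chow w)) = C a * (chow x * (lin v * chow w)) := by ring
    have e2 : lin v * (C b * (chow y * chow w)) = C b * (chow y * (lin v * chow w)) := by ring
    rw [e1, e2] at h1
    exact h1

theorem RatEq2.mono {m d m' d' n : ℕ} {x y : Fin n → τ → K} (h : RatEq2 V m d x y)
    (hV : V.Nonempty) (hm : m ≤ m') (hd : d ≤ d') : RatEq2 V m' d' x y := by
  obtain ⟨v, hv⟩ := hV
  induction m', hm using Nat.le_induction with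
  | base =>
    induction d', hd using Nat.le_induction with
    | base => exact h
    | succ d' _ ih => exact ih.succ_right
  | succ m' _ ih => exact ih.succ_left hv

theorem RatEq.mono {c c' n : ℕ} {x y : Fin n → τ → K} (h : RatEq V c x y) (hV : V.Nonempty)
    (hc : c ≤ c') : RatEq V c' x y := RatEq2.mono h hV hc hc

/-- Adding a point to both zero-cycles. -/
theorem RatEq.add_point {c n : ℕ} {x y : Fin (n + 1) → τ → K}
    (h : RatEq V c (fun i : Fin n => x i.castSucc) (fun i : Fin n => y i.castSucc))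
    (hxy : y (Fin.last n) = x (Fin.last n)) (hv : x (Fin.last n) ∈ V) : RatEq V c x y := by
  obtain ⟨w, a, b, hw, ha, hb, h⟩ := h
  refine ⟨w, a, b, hw, ha, hb, ?_⟩
  have h1 := h.mul_lin hv
  rw [chow_snoc x, chow_snoc y, hxy]
  have e1 : lin (x (Fin.last n)) * (C a * (chow (fun i : Fin n => x i.castSucc) * chow w)) =
      C a * (chow (fun i : Fin n => x i.castSucc) * lin (x (Fin.last n)) * chow w) := by ring
  have e2 : lin (x (Fin.last n)) * (C b * (chow (fun i : Fin n => y i.castSucc) * chow w)) =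
      C b * (chow (fun i : Fin n => y i.castSucc) * lin (x (Fin.last n)) * chow w) := by ring
  rw [e1, e2] at h1
  have e3 : n + 1 + c = n + c + 1 := by omega
  rw [e3]
  exact h1

variable {R : Type} [CommRing R] {r : ℕ} {S : Finset (MvPolynomial (Fin (r + 1)) R)}
  {l : Fin (r + 1) → R} {φ : R →+* K} {n c : ℕ}

theorem Moves.succ (h : Moves S l φ n c) : Moves S l φ (n + 1) c := by
  intro x hx
  obtain ⟨y, hy, hy0, hR⟩ := h (fun i => x i.castSucc) fun i => hx _
  refine ⟨Fin.snoc y (x (Fin.last (n + 1))), fun i => ?_, ?_, ?_⟩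
  · refine Fin.lastCases ?_ (fun i => ?_) i
    · rw [Fin.snoc_last]
      exact hx _
    · rw [Fin.snoc_castSucc]
      exact hy i
  · have : (Fin.snoc y (x (Fin.last (n + 1))) : Fin (n + 1 + 1) → Fin (r + 1) → K) 0 = y 0 :=
      Fin.snoc_castSucc (α := fun _ => Fin (r + 1) → K) _ _ (0 : Fin (n + 1))
    rw [this]
    exact hy0
  · refine RatEq.add_point ?_ (Fin.snoc_last (α := fun _ => Fin (r + 1) → K) _ _) (hx _)
    have : (fun i : Fin (n + 1) => (Fin.snoc y (x (Fin.last (n + 1))) :
        Fin (n + 1 + 1) → Fin (r + 1) → K) i.castSucc) = y :=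
      funext fun i => Fin.snoc_castSucc (α := fun _ => Fin (r + 1) → K) _ _ i
    rw [this]
    exact hR

theorem Moves.mono {n' c' : ℕ} (h : Moves S l φ n c) (hn : n ≤ n') (hc : c ≤ c') :
    Moves S l φ n' c' := by
  have h1 : Moves S l φ n c' := by
    intro x hx
    obtain ⟨y, hy, hy0, hR⟩ := h x hx
    exact ⟨y, hy, hy0, hR.mono ⟨x 0, hx 0⟩ hc⟩
  induction n', hn using Nat.le_induction with
  | base => exact h1
  | succ n' _ ih => exact ih.succ

end Pool.Agent.H837.UF
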