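import Mathlib

/-!
# Ultraproducts of algebraically closed fields

Let `K j` be algebraically closed fields, `j = 0, 1, 2, …`, which are countable, of positive
characteristic `p j`, with `p j ≥ j`. We construct a surjective ring homomorphism from the product
of the `K j` to the field of complex numbers, whose kernel consists of the sequences which are zero
for almost all `j` with respect to an ultrafilter.
-/

set_option autoImplicit false

namespace Pool.Agent.H837.UF

open Cardinal Filter

variable {J : Type} (U : Ultrafilter J) {K : J → Type} [∀ j, Field (K j)]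

/-- The sequences which are zero almost everywhere. -/
def nullIdeal : Ideal (∀ j, K j) where
  carrier := {a | ∀ᶠ j in U, a j = 0}
  add_mem' := by
    intro a b ha hb
    filter_upwards [ha, hb] with j h1 h2
    rw [Pi.add_apply, h1, h2, add_zero]
  zero_mem' := Filter.Eventually.of_forall fun j => rfl
  smul_mem' := by
    intro c a ha
    filter_upwards [ha] with j h1
    rw [smul_eq_mul, Pi.mul_apply, h1, mul_zero]

theorem mem_nullIdeal (a : ∀ j, K j) : a ∈ nullIdeal (K := K) U ↔ ∀ᶠ j in U, a j = 0 := Iff.rfl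

instance nullIdeal_isMaximal : (nullIdeal (K := K) U).IsMaximal := by
  classical
  rw [Ideal.isMaximal_iff]
  constructor
  · intro h
    have h1 : ∀ᶠ j in U, (1 : ∀ j, K j) j = 0 := h
    obtain ⟨j, hj⟩ := h1.exists
    exact one_ne_zero hj
  · intro I x hI hx hxI
    have h1 : ∀ᶠ j in U, x j ≠ 0 := by
      rw [Filter.Eventually, ← Set.compl_ofPred] at *
      exact Ultrafilter.compl_mem_iff_notMem.mpr hx
    have h2 : 1 - x * (fun j => (x j)⁻¹) ∈ nullIdeal (K := K) U := by
      rw [mem_nullIdeal]
      filter_upwards [h1] with j hj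
      rw [Pi.sub_apply, Pi.mul_apply, Pi.one_apply, mul_inv_cancel₀ hj, sub_self]
    have h3 : (1 : ∀ j, K j) = (1 - x * (fun j => (x j)⁻¹)) + x * (fun j => (x j)⁻¹) := by ring
    rw [h3]
    exact I.add_mem (hI h2) (I.mul_mem_right _ hxI)

/-- The ultraproduct. -/
abbrev UProd : Type := (∀ j, K j) ⧸ nullIdeal (K := K) U

noncomputable instance : Field (UProd (K := K) U) := Ideal.Quotient.field _

theorem mk_eq_zero (a : ∀ j, K j) :
    (Ideal.Quotient.mk (nullIdeal (K := K) U) a = 0) ↔ ∀ᶠ j in U, a j = 0 := by
  rw [Ideal.Quotient.eq_zero_iff_mem, mem_nullIdeal]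

instance uprod_isAlgClosed [∀ j, IsAlgClosed (K j)] : IsAlgClosed (UProd (K := K) U) := by
  classical
  apply IsAlgClosed.of_exists_root
  intro q hq hirr
  obtain ⟨P, hP, hPd, hPm⟩ := Polynomial.lifts_and_natDegree_eq_and_monic
    (f := Ideal.Quotient.mk (nullIdeal (K := K) U)) (p := q)
    (by
      rw [Polynomial.lifts_iff_coeff_lifts]
      intro n
      obtain ⟨a, ha⟩ := Ideal.Quotient.mk_surjective (q.coeff n)
      exact ⟨a, ha⟩) hq
  have hd : q.natDegree ≠ 0 := hirr.natDegree_pos.ne'
  have h1 : ∀ j, ∃ x : K j, Polynomial.eval x (P.map (Pi.evalRingHom K j)) = 0 := by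
    intro j
    obtain ⟨x, hx⟩ := IsAlgClosed.exists_root (P.map (Pi.evalRingHom K j)) (by
      apply Polynomial.degree_ne_of_natDegree_ne
      rw [hPm.natDegree_map, hPd]
      exact hd)
    exact ⟨x, hx⟩
  choose x hx using h1
  refine ⟨Ideal.Quotient.mk _ x, ?_⟩
  rw [← hP, Polynomial.eval_map, Polynomial.eval₂_hom, mk_eq_zero]
  refine Filter.Eventually.of_forall fun j => ?_
  rw [← hx j, Polynomial.eval_map]
  have := Polynomial.hom_eval₂ P (RingHom.id _) (Pi.evalRingHom K j) x
  rw [RingHom.comp_id] at this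
  exact this

/-- The characteristic of the ultraproduct is zero if the characteristics of the fields tend to
infinity. -/
theorem uprod_charZero (h : ∀ n : ℕ, n ≠ 0 → ∀ᶠ j in U, (n : K j) ≠ 0) :
    CharZero (UProd (K := K) U) := by
  refine charZero_of_inj_zero fun n hn0 => ?_
  by_contra hn
  have h1 : Ideal.Quotient.mk (nullIdeal (K := K) U) (n : ∀ j, K j) = 0 := by
    rw [map_natCast]
    exact hn0
  rw [mk_eq_zero] at h1
  obtain ⟨j, hj1, hj2⟩ := (h1.and (h n hn)).exists
  exact hj2 (by simpa using hj1)

end Pool.Agent.H837.UF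

namespace Pool.Agent.H837.UF

open Cardinal Filter

variable {K : ℕ → Type} [∀ j, Field (K j)]

/-- The ultraproduct of countably many countable infinite fields has the cardinality of the
continuum. -/
theorem uprod_card [∀ j, Infinite (K j)] [∀ j, Countable (K j)] :
    #(UProd (K := K) (hyperfilter ℕ)) = 𝔠 := by
  classical
  apply le_antisymm
  · have h1 : #(UProd (K := K) (hyperfilter ℕ)) ≤ #(∀ j, K j) :=
      mk_le_of_surjective Ideal.Quotient.mk_surjective
    refine h1.trans ?_
    rw [mk_pi]
    have h2 : (fun j => #(K j)) = fun _ : ℕ => (ℵ₀ : Cardinal) := by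
      funext j
      exact mk_eq_aleph0 (K j)
    rw [h2, prod_const]
    simp
  · have e : ∀ j : ℕ, Nonempty ((Fin j → Bool) ↪ K j) := fun j => by
      have := Infinite.natEmbedding (K j)
      exact ⟨(Fintype.equivFin (Fin j → Bool)).toEmbedding.trans
        (Fin.valEmbedding.trans this)⟩
    let f : (ℕ → Bool) → UProd (K := K) (hyperfilter ℕ) := fun b =>
      Ideal.Quotient.mk _ fun j => (e j).some fun i : Fin j => b i
    have hf : Function.Injective f := by
      intro b b' hbb
      have h1 : Ideal.Quotient.mk (nullIdeal (K := K) (hyperfilter ℕ))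
          ((fun j => (e j).some fun i : Fin j => b i) -
            fun j => (e j).some fun i : Fin j => b' i) = 0 := by
        rw [map_sub, sub_eq_zero]
        exact hbb
      rw [mk_eq_zero] at h1
      funext i
      have h2 : ∀ᶠ j in (hyperfilter ℕ : Filter ℕ), i < j :=
        Nat.hyperfilter_le_atTop (eventually_gt_atTop i)
      obtain ⟨j, hj1, hj2⟩ := (h1.and h2).exists
      have h3 : (e j).some (fun i : Fin j => b i) = (e j).some (fun i : Fin j => b' i) := by
        rw [Pi.sub_apply, sub_eq_zero] at hj1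
        exact hj1
      exact congrFun ((e j).some.injective h3) ⟨i, hj2⟩
    have h3 := mk_le_of_injective hf
    simpa using h3

/-- Two algebraically closed fields of the cardinality of the continuum which contain a countable
ring `R` are isomorphic over `R`. -/
theorem exists_equiv {R E L : Type} [CommRing R] [Countable R] [Field E] [Field L] [IsAlgClosed E]
    [IsAlgClosed L] (hE : #E = 𝔠) (hL : #L = 𝔠) (f : R →+* E) (g : R →+* L)
    (hf : Function.Injective f) (hg : Function.Injective g) :
    ∃ e : E ≃+* L, ∀ x, e (f x) = g x := by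
  let _ : Algebra R E := f.toAlgebra
  let _ : Algebra R L := g.toAlgebra
  have : FaithfulSMul R E := (faithfulSMul_iff_algebraMap_injective R E).mpr hf
  have : FaithfulSMul R L := (faithfulSMul_iff_algebraMap_injective R L).mpr hg
  have : Nontrivial R := by
    refine ⟨0, 1, fun h => ?_⟩
    have := congrArg f h
    rw [map_zero, map_one] at this
    exact zero_ne_one this
  obtain ⟨s, hs⟩ := exists_isTranscendenceBasis R E
  obtain ⟨t, ht⟩ := exists_isTranscendenceBasis R L
  have hRc : #R ≤ ℵ₀ := mk_le_aleph0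
  have h1 := IsAlgClosed.cardinal_eq_cardinal_transcendence_basis_of_aleph0_lt _ hs hRc
    (by rw [hE]; exact aleph0_lt_continuum)
  have h2 := IsAlgClosed.cardinal_eq_cardinal_transcendence_basis_of_aleph0_lt _ ht hRc
    (by rw [hL]; exact aleph0_lt_continuum)
  have h3 : #s = #t := by
    have e1 := Cardinal.lift_injective h1
    have e2 := Cardinal.lift_injective h2
    rw [← e1, ← e2, hE, hL]
  obtain ⟨i⟩ := Cardinal.eq.mp h3
  let _ := IsAlgClosed.isAlgClosure_of_transcendence_basis _ hs
  let _ := IsAlgClosed.isAlgClosure_of_transcendence_basis _ ht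
  let e : Algebra.adjoin R (Set.range ((↑) : s → E)) ≃ₐ[R]
      Algebra.adjoin R (Set.range ((↑) : t → L)) :=
    (hs.1.aevalEquiv.symm.trans (MvPolynomial.renameEquiv R i)).trans ht.1.aevalEquiv
  refine ⟨IsAlgClosure.equivOfEquiv E L e.toRingEquiv, fun x => ?_⟩
  have h4 : f x = algebraMap (Algebra.adjoin R (Set.range ((↑) : s → E))) E
      (algebraMap R _ x) := rfl
  rw [h4, IsAlgClosure.equivOfEquiv_algebraMap]
  have h5 : e.toRingEquiv (algebraMap R _ x) = algebraMap R _ x := e.commutes x
  rw [h5]
  rfl

/-- **The field of complex numbers as an ultraproduct** of countable algebraically closed fields whose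
characteristics tend to infinity, over a countable ring `R`. -/
theorem exists_hom_over [∀ j, IsAlgClosed (K j)] [∀ j, Countable (K j)]
    {R : Type} [CommRing R] [Countable R] (ι : R →+* ℂ) (hι : Function.Injective ι)
    (φ : R →+* (∀ j, K j)) (hφ : ∀ x, x ≠ 0 → ∀ᶠ j in atTop, φ x j ≠ 0) :
    ∃ π : (∀ j, K j) →+* ℂ, Function.Surjective π ∧
      (∀ a, π a = 0 ↔ ∀ᶠ j in (hyperfilter ℕ : Filter ℕ), a j = 0) ∧ π.comp φ = ι := by
  have hinf : ∀ j, Infinite (K j) := fun j => IsAlgClosed.instInfinite
  have hc := uprod_card (K := K)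
  have hinj : Function.Injective
      ((Ideal.Quotient.mk (nullIdeal (K := K) (hyperfilter ℕ))).comp φ) := by
    rw [injective_iff_map_eq_zero]
    intro x hx
    by_contra h0
    rw [RingHom.comp_apply, mk_eq_zero] at hx
    obtain ⟨j, hj1, hj2⟩ := (hx.and (Nat.hyperfilter_le_atTop (hφ x h0))).exists
    exact hj2 hj1
  obtain ⟨e, he⟩ := exists_equiv hc Cardinal.mk_complex
    ((Ideal.Quotient.mk (nullIdeal (K := K) (hyperfilter ℕ))).comp φ) ι hinj hι
  refine ⟨(e : UProd (K := K) (hyperfilter ℕ) →+* ℂ).comp (Ideal.Quotient.mk _), ?_, fun a => ?_,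
    RingHom.ext he⟩
  · rw [RingHom.coe_comp]
    exact e.surjective.comp Ideal.Quotient.mk_surjective
  · rw [RingHom.comp_apply]
    rw [← mk_eq_zero (K := K) (hyperfilter ℕ) a]
    exact e.map_eq_zero_iff

end Pool.Agent.H837.UF
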